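import Pool.Agent.Lib.MP_a78e1f_lc.T.Iface

/-!
Modules GND and GMX: nodes and conditions of tree forcings (adapted from the modules ND and MXF).
-/

set_option autoImplicit false

universe u v

open Cardinal Filter MeasureTheory

namespace Pool.Agent.Lib.MP_a78e1f_lc.H65

open Pool.Agent.Lib.MP_100a6c_lc
open Pool.Agent.Lib.MP_c5d73d_lc.F (pr)
open Pool.Agent.Lib.MP_c5d73d_lc.F.H62 (eq_iSup_pr pr_ne_bot)
open Pool.Agent.Lib.MP_e6fef2_lc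
open Pool.Agent.Lib.MP_6d445e_gt
open Pool.Agent.Lib.MP_a78e1f_lc

/-! ## Combinatorics of trees -/

theorem cmp_of_prefix {s s' t : List ℕ} (h : s <+: s') (h' : Cmp s' t) : Cmp s t := by
  rcases h' with h' | h'
  · exact Or.inl (h.trans h')
  · rcases List.prefix_or_prefix_of_prefix h h' with h1 | h1
    · exact Or.inl h1
    · exact Or.inr h1

theorem cmp_symm {s t : List ℕ} (h : Cmp s t) : Cmp t s := h.symm

section

variable {𝒯 : Set (List ℕ) → Prop} (hT : TFam 𝒯)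

include hT

theorem long {T : Set (List ℕ)} (h : 𝒯 T) (n : ℕ) : ∃ t ∈ T, t.length = n := by
  induction n with
  | zero => exact ⟨[], hT.nil T h, rfl⟩
  | succ n ih =>
    obtain ⟨t, ht, hn⟩ := ih
    obtain ⟨k, hk⟩ := hT.ext T h t ht
    exact ⟨_, hk, by simp [hn]⟩

/-- If all nodes are comparable with `t`, then `t` is a node. -/
theorem mem_of_cmp {T : Set (List ℕ)} (h : 𝒯 T) {t : List ℕ}
    (ht : ∀ s ∈ T, Cmp s t) : t ∈ T := by
  obtain ⟨s, hs, hn⟩ := long hT h (t.length)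
  rcases ht s hs with h1 | h1
  · rw [List.IsPrefix.eq_of_length h1 hn] at hs
    exact hs
  · exact hT.pre T h _ _ h1 hs

end

/-! ## Trees and ultrafilters -/

section

variable {A : Type u} [CompleteBooleanAlgebra A]

theorem measurableSet_fam {𝒯 : Set (List ℕ) → Prop} (hT : TFam 𝒯) {F : List ℕ → Ult A → Prop}
    (hF : ∀ t, MeasurableSet {g | F t g}) : MeasurableSet {g : Ult A | 𝒯 {t | F t g}} := by
  classical
  have h1 : Measurable fun (g : Ult A) (t : List ℕ) => decide (F t g) := by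
    refine measurable_pi_iff.2 fun t => ?_
    refine measurable_to_bool ?_
    have h2 : (fun g : Ult A => decide (F t g)) ⁻¹' {true} = {g | F t g} := by
      ext g
      simp
    rw [h2]
    exact hF t
  have h3 := h1 hT.meas
  have h4 : (fun (g : Ult A) (t : List ℕ) => decide (F t g)) ⁻¹' {x | 𝒯 {t | x t = true}} =
      {g : Ult A | 𝒯 {t | F t g}} := by
    ext g
    simp
  rwa [h4] at h3

theorem exists_tree {𝒯 : Set (List ℕ) → Prop} (F : List ℕ → Ult A → Prop)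
    (hF : ∀ t, MeasurableSet {g | F t g}) (h : ∀ᶠ g in ae A, 𝒯 {t | F t g}) :
    ∃ τ : TX 𝒯 A, ∀ᶠ g in ae A, ∀ t, τ.1 t ∈ g ↔ F t g := by
  obtain ⟨x, hx⟩ := exists_name hF
  refine ⟨⟨x, ?_⟩, hx⟩
  filter_upwards [hx, h] with g h1 h2
  have h3 : {t | x t ∈ g} = {t | F t g} := by
    ext t
    exact h1 t
  rw [h3]
  exact h2

theorem nonempty_TX {𝒯 : Set (List ℕ) → Prop} (hT : TFam 𝒯) : Nonempty (TX 𝒯 A) := by
  classical
  obtain ⟨T, h⟩ := hT.ne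
  refine ⟨⟨fun t => if t ∈ T then ⊤ else ⊥, Filter.Eventually.of_forall fun g => ?_⟩⟩
  have : {t : List ℕ | (if t ∈ T then (⊤ : A) else ⊥) ∈ g} = T := by
    ext t
    simp only [Set.mem_ofPred_eq]
    split_ifs with h
    · simp [g.mem_top, h]
    · simp [g.not_bot, h]
  rw [this]
  exact h

variable {𝒯 : Set (List ℕ) → Prop}

theorem mem_tst (τ : TX 𝒯 A) (t : List ℕ) :
    ∀ᶠ g in ae A, tst τ t ∈ g ↔ τ.1 t ∈ g ∧ ∀ s, τ.1 s ∈ g → Cmp s t := by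
  filter_upwards [ae_iInf fun s : List ℕ => ⨅ _ : ¬ Cmp s t, (τ.1 s)ᶜ,
    ae_all fun s : List ℕ => ae_iInf fun _ : ¬ Cmp s t => (τ.1 s)ᶜ] with g h1 h2
  unfold tst
  rw [g.mem_inf, h1]
  refine and_congr_right fun _ => forall_congr' fun s => ?_
  rw [h2]
  simp only [g.mem_compl]
  exact not_imp_not

theorem mem_le (τ τ' : TX 𝒯 A) :
    ∀ᶠ g in ae A, (TQ 𝒯 A).le τ τ' ∈ g ↔ ∀ s, τ.1 s ∈ g → τ'.1 s ∈ g := by
  filter_upwards [ae_iInf fun s : List ℕ => τ.1 s ⇨ τ'.1 s] with g h1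
  change (⨅ t, τ.1 t ⇨ τ'.1 t) ∈ g ↔ _
  rw [h1]
  simp only [g.mem_himp]

end

/-! ## Abstract version -/

/-- What is used of the extension by Miller forcing. -/
structure TrExt (𝒯 : Set (List ℕ) → Prop) {A C : Type u} [CompleteBooleanAlgebra A]
    [CompleteBooleanAlgebra C] (f : A → C) (G : TX 𝒯 A → C) : Prop where
  fam : TFam 𝒯
  ce : IsCE f
  gf : GenF f (TQ 𝒯 A) G
  pj : ∀ x, prj f (G x) = ⊤
  de : ∀ c : C, c ≠ ⊥ → ∃ (b : A) (τ : TX 𝒯 A), b ≠ ⊥ ∧ f b ⊓ G τ ≤ c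

/-- Nodes of the generic real. -/
def NDa {𝒯 : Set (List ℕ) → Prop} {A C : Type u} [CompleteBooleanAlgebra A]
    [CompleteBooleanAlgebra C] (f : A → C) (G : TX 𝒯 A → C) (t : List ℕ) : C := ⨆ τ : TX 𝒯 A, f (tst τ t) ⊓ G τ

section

variable {𝒯 : Set (List ℕ) → Prop} {A C : Type u} [CompleteBooleanAlgebra A]
  [CompleteBooleanAlgebra C] {f : A → C} {G : TX 𝒯 A → C} (H : TrExt 𝒯 f G)

include H

theorem TrExt.top : f ⊤ = ⊤ := (all_alg A C f H.ce).1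
theorem TrExt.bot : f ⊥ = ⊥ := (all_alg A C f H.ce).2.1
theorem TrExt.inf (a b : A) : f (a ⊓ b) = f a ⊓ f b := (all_alg A C f H.ce).2.2.1 a b
theorem TrExt.le_iff {a b : A} : f a ≤ f b ↔ a ≤ b := (all_alg A C f H.ce).2.2.2.2.1 a b
theorem TrExt.pmono {a b : C} (h : a ≤ b) : prj f a ≤ prj f b :=
  (all_alg A C f H.ce).2.2.2.2.2.2.2.2.2.2.2.2.1 a b h
theorem TrExt.lin (c : C) (a : A) : prj f (c ⊓ f a) = prj f c ⊓ a :=
  (all_alg A C f H.ce).2.2.2.2.2.2.2.2.2.2.2.2.2.2.2.2.1 c a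
theorem TrExt.pbot {c : C} : prj f c = ⊥ ↔ c = ⊥ :=
  (all_alg A C f H.ce).2.2.2.2.2.2.2.2.2.2.2.2.2.2.2.2.2.1 c
theorem TrExt.dis {c : C} {a : A} : f a ⊓ c = ⊥ ↔ a ⊓ prj f c = ⊥ :=
  (all_alg A C f H.ce).2.2.2.2.2.2.2.2.2.2.2.2.2.2.2.2.2.2 c a

theorem TrExt.prj_mG_inf (τ : TX 𝒯 A) (b : A) : prj f (f b ⊓ G τ) = b := by
  rw [inf_comm, H.lin, H.pj, top_inf_eq]

/-- Two trees in the generic filter. -/
theorem TrExt.mG_inf_le (τ τ' : TX 𝒯 A) (a : A) (c : C)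
    (h : ∀ σ : TX 𝒯 A, f ((TQ 𝒯 A).le σ τ ⊓ (TQ 𝒯 A).le σ τ' ⊓ a) ⊓ G σ ≤ c) :
    G τ ⊓ G τ' ⊓ f a ≤ c := by
  refine (inf_le_inf_right _ (H.gf.dir τ τ')).trans ?_
  rw [iSup_inf_eq]
  refine iSup_le fun σ => ?_
  refine le_trans (le_of_eq ?_) (h σ)
  rw [H.inf, H.inf]
  ac_rfl

omit H in
theorem ND_ge (τ : TX 𝒯 A) (t : List ℕ) : f (tst τ t) ⊓ G τ ≤ NDa f G t :=
  le_iSup (fun τ : TX 𝒯 A => f (tst τ t) ⊓ G τ) τ

theorem TrExt.mE_le (τ τ' : TX 𝒯 A) {a : A} (h : a ≤ (TQ 𝒯 A).le τ τ') : f a ⊓ G τ ≤ G τ' :=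
  (inf_le_inf_right _ (H.le_iff.2 h)).trans (H.gf.up τ τ')

/-- Restriction to a node. -/
theorem TrExt.exists_restrict (τ : TX 𝒯 A) (t : List ℕ) : ∃ τ' : TX 𝒯 A,
    f (τ.1 t) ⊓ G τ' = G τ ⊓ NDa f G t ∧ τ.1 t ≤ tst τ' t ∧ τ.1 t ≤ (TQ 𝒯 A).le τ' τ ∧
    ∀ s, τ.1 t ⊓ τ'.1 s = τ.1 t ⊓ ⨆ _ : Cmp s t, τ.1 s := by
  classical
  let k : List ℕ → A := fun s => if Cmp s t then τ.1 s else τ.1 s ⊓ (τ.1 t)ᶜ
  have hk : ∀ᶠ g in ae A, 𝒯 {s | k s ∈ g} ∧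
      ∀ s, k s ∈ g ↔ τ.1 s ∈ g ∧ (τ.1 t ∈ g → Cmp s t) := by
    filter_upwards [τ.2] with g hg
    have key : ∀ s, k s ∈ g ↔ τ.1 s ∈ g ∧ (τ.1 t ∈ g → Cmp s t) := by
      intro s
      simp only [k]
      split_ifs with h
      · simp [h]
      · rw [g.mem_inf, g.mem_compl]
        refine and_congr_right fun _ => ?_
        constructor
        · intro h1 h2
          exact absurd h2 h1
        · intro h1 h2
          exact h (h1 h2)
    refine ⟨?_, key⟩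
    by_cases h : τ.1 t ∈ g
    · have h1 := H.fam.res _ hg t h
      have h2 : {s | k s ∈ g} = {s | s ∈ {t | τ.1 t ∈ g} ∧ Cmp s t} := by
        ext s
        simp only [Set.mem_ofPred_eq]
        rw [key]
        simp [h]
      rw [h2]
      exact h1
    · have h2 : {s | k s ∈ g} = {t | τ.1 t ∈ g} := by
        ext s
        simp only [Set.mem_ofPred_eq]
        rw [key]
        simp [h]
      rw [h2]
      exact hg
  let τ' : TX 𝒯 A := ⟨k, hk.mono fun _ h => h.1⟩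
  have h2 : τ.1 t ≤ tst τ' t := by
    refine le_of_ae ?_
    filter_upwards [hk, mem_tst τ' t] with g h1 h2 h3
    rw [h2]
    refine ⟨(h1.2 t).2 ⟨h3, fun _ => Or.inl List.prefix_rfl⟩, fun s hs => ?_⟩
    exact ((h1.2 s).1 hs).2 h3
  have h3 : τ.1 t ≤ (TQ 𝒯 A).le τ' τ := by
    refine le_of_ae ?_
    filter_upwards [hk, mem_le τ' τ] with g h1 h2 h3
    rw [h2]
    intro s hs
    exact ((h1.2 s).1 hs).1
  have h4 : ∀ s, τ.1 t ⊓ τ'.1 s = τ.1 t ⊓ ⨆ _ : Cmp s t, τ.1 s := by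
    intro s
    refine eq_of_ae ?_
    filter_upwards [hk, ae_iSup fun _ : Cmp s t => τ.1 s] with g h1 h2
    rw [g.mem_inf, g.mem_inf, h2]
    refine and_congr_right fun h5 => ?_
    have h6 := h1.2 s
    constructor
    · intro h7
      have h8 := h6.1 h7
      exact ⟨h8.2 h5, h8.1⟩
    · rintro ⟨h7, h8⟩
      exact h6.2 ⟨h8, fun _ => h7⟩
  refine ⟨τ', le_antisymm ?_ ?_, h2, h3, h4⟩
  · exact le_inf (H.mE_le τ' τ h3) ((inf_le_inf_right _ (H.le_iff.2 h2)).trans (ND_ge τ' t))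
  · unfold NDa
    rw [inf_iSup_eq]
    refine iSup_le fun σ => ?_
    have h4 : G τ ⊓ (f (tst σ t) ⊓ G σ) = G τ ⊓ G σ ⊓ f (tst σ t) := by ac_rfl
    rw [h4]
    refine H.mG_inf_le τ σ _ _ fun ρ => ?_
    have h5 : (TQ 𝒯 A).le ρ τ ⊓ (TQ 𝒯 A).le ρ σ ⊓ tst σ t ≤ τ.1 t ⊓ (TQ 𝒯 A).le ρ τ' := by
      refine le_of_ae ?_
      filter_upwards [hk, mem_le ρ τ, mem_le ρ σ, mem_le ρ τ', mem_tst σ t, ρ.2] with g h1 h2 h3 h4
        h5 h6 h7
      rw [g.mem_inf, g.mem_inf, h2, h3, h5] at h7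
      obtain ⟨⟨h8, h9⟩, h10, h11⟩ := h7
      have h12 : t ∈ {t | ρ.1 t ∈ g} := mem_of_cmp H.fam h6 fun s hs => h11 s (h9 s hs)
      rw [g.mem_inf, h4]
      exact ⟨h8 t h12, fun s hs => (h1.2 s).2 ⟨h8 s hs, fun _ => h11 s (h9 s hs)⟩⟩
    refine (inf_le_inf_right _ (H.le_iff.2 h5)).trans ?_
    rw [H.inf]
    refine le_inf (inf_le_left.trans inf_le_left) ?_
    exact (inf_le_inf_right _ inf_le_right).trans (H.mE_le ρ τ' le_rfl)

theorem TrExt.prj_mG_ND (τ : TX 𝒯 A) (t : List ℕ) : prj f (G τ ⊓ NDa f G t) = τ.1 t := by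
  obtain ⟨τ', h1, -, -, -⟩ := H.exists_restrict τ t
  rw [← h1, H.prj_mG_inf]

theorem TrExt.nd_mono (t t' : List ℕ) (h : t <+: t') : NDa f G t' ≤ NDa f G t := by
  refine iSup_le fun τ => ?_
  have h1 : tst τ t' ≤ tst τ t := by
    refine le_of_ae ?_
    filter_upwards [mem_tst τ t, mem_tst τ t', τ.2] with g h1 h2 h3 h4
    rw [h2] at h4
    rw [h1]
    refine ⟨H.fam.pre _ h3 t t' h h4.1, fun s hs => ?_⟩
    rcases h4.2 s hs with h5 | h5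
    · exact cmp_symm (cmp_of_prefix h (Or.inr h5))
    · exact Or.inr (h.trans h5)
  exact (inf_le_inf_right _ (H.le_iff.2 h1)).trans (ND_ge τ t)

theorem TrExt.nd_nil : NDa f G [] = ⊤ := by
  have h1 : ∀ τ : TX 𝒯 A, tst τ [] = ⊤ := by
    intro τ
    refine eq_of_ae ?_
    filter_upwards [mem_tst τ [], τ.2] with g h1 h2
    rw [h1]
    simp only [g.mem_top, iff_true]
    exact ⟨H.fam.nil _ h2, fun s _ => Or.inr List.nil_prefix⟩
  rw [← H.gf.ne]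
  unfold NDa
  refine iSup_congr fun τ => ?_
  rw [h1, H.top, top_inf_eq]

theorem TrExt.nd_dis (t t' : List ℕ) (h : ¬ Cmp t t') : NDa f G t ⊓ NDa f G t' = ⊥ := by
  unfold NDa
  rw [iSup_inf_eq, iSup_eq_bot]
  intro τ
  rw [inf_iSup_eq, iSup_eq_bot]
  intro τ'
  have h1 : f (tst τ t) ⊓ G τ ⊓ (f (tst τ' t') ⊓ G τ') =
      G τ ⊓ G τ' ⊓ f (tst τ t ⊓ tst τ' t') := by
    rw [H.inf]
    ac_rfl
  rw [h1, ← le_bot_iff]
  refine H.mG_inf_le τ τ' _ _ fun σ => ?_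
  have h2 : (TQ 𝒯 A).le σ τ ⊓ (TQ 𝒯 A).le σ τ' ⊓ (tst τ t ⊓ tst τ' t') ≤ ⊥ := by
    refine le_of_ae ?_
    filter_upwards [mem_le σ τ, mem_le σ τ', mem_tst τ t, mem_tst τ' t', σ.2] with g h1 h2 h3 h4
      h5 h6
    rw [g.mem_inf, g.mem_inf, g.mem_inf, h1, h2, h3, h4] at h6
    obtain ⟨⟨h7, h8⟩, ⟨-, h9⟩, -, h10⟩ := h6
    have h11 : t ∈ {t | σ.1 t ∈ g} := mem_of_cmp H.fam h5 fun s hs => h9 s (h7 s hs)
    exact absurd (h10 t (h8 t h11)) h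
  rw [le_bot_iff] at h2
  rw [h2, H.bot, bot_inf_eq]

theorem TrExt.nd_succ (t : List ℕ) : NDa f G t = ⨆ k, NDa f G (t ++ [k]) := by
  refine le_antisymm ?_ (iSup_le fun k => H.nd_mono t _ (List.prefix_append _ _))
  by_contra hcon
  have h1 : NDa f G t ⊓ (⨆ k, NDa f G (t ++ [k]))ᶜ ≠ ⊥ := by
    intro h2
    apply hcon
    rw [← compl_compl (⨆ k, NDa f G (t ++ [k])), le_compl_iff_disjoint_right, disjoint_iff]
    exact h2
  obtain ⟨b, σ, hb, h2⟩ := H.de _ h1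
  have h3 : b ≤ σ.1 t := by
    have h4 : f b ⊓ G σ ≤ G σ ⊓ NDa f G t := le_inf inf_le_right (h2.trans inf_le_left)
    have h5 := H.pmono h4
    rwa [H.prj_mG_inf, H.prj_mG_ND] at h5
  have h4 : b ≤ ⨆ k, σ.1 (t ++ [k]) := by
    refine h3.trans (le_of_ae ?_)
    filter_upwards [σ.2, ae_iSup fun k => σ.1 (t ++ [k])] with g h1 h2 h3
    rw [h2]
    exact H.fam.ext _ h1 t h3
  have h5 : ∃ k, b ⊓ σ.1 (t ++ [k]) ≠ ⊥ := by
    by_contra hcon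
    push Not at hcon
    apply hb
    rw [← inf_eq_left.2 h4, inf_iSup_eq, iSup_eq_bot]
    exact hcon
  obtain ⟨k, hk⟩ := h5
  apply hk
  have h6 : b ⊓ σ.1 (t ++ [k]) = prj f (G σ ⊓ NDa f G (t ++ [k]) ⊓ f b) := by
    rw [H.lin, H.prj_mG_ND, inf_comm]
  rw [h6, H.pbot]
  rw [← le_bot_iff, ← inf_compl_self (⨆ k, NDa f G (t ++ [k]))]
  refine le_inf ?_ ?_
  · exact (inf_le_left.trans inf_le_right).trans (le_iSup (fun k => NDa f G (t ++ [k])) k)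
  · refine le_trans ?_ (h2.trans inf_le_right)
    exact le_inf inf_le_right (inf_le_left.trans inf_le_left)

theorem TrExt.nd_bot (t : List ℕ) (ht : ∀ T, 𝒯 T → t ∉ T) : NDa f G t = ⊥ := by
  unfold NDa
  rw [iSup_eq_bot]
  intro τ
  have h1 : tst τ t = ⊥ := by
    rw [← le_bot_iff]
    refine le_of_ae ?_
    filter_upwards [mem_tst τ t, τ.2] with g h1 h2 h3
    rw [h1] at h3
    exact absurd h3.1 (ht _ h2)
  rw [h1, H.bot, bot_inf_eq]

theorem TrExt.fo_iff (τ : TX 𝒯 A) (c : C) (a : A) : a ≤ (prj f (G τ ⊓ cᶜ))ᶜ ↔ f a ⊓ G τ ≤ c := by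
  rw [le_compl_iff_disjoint_right, disjoint_iff, ← H.dis, ← inf_assoc]
  nth_rewrite 2 [← compl_compl c]
  rw [le_compl_iff_disjoint_right, disjoint_iff]

theorem TrExt.congr (τ τ' : TX 𝒯 A) (a : A) (h : ∀ s, a ⊓ τ'.1 s = a ⊓ τ.1 s) :
    f a ⊓ G τ' = f a ⊓ G τ := by
  have h1 : a ≤ (TQ 𝒯 A).le τ τ' := by
    refine le_iInf fun s => ?_
    rw [le_himp_iff, ← h]
    exact inf_le_right
  have h2 : a ≤ (TQ 𝒯 A).le τ' τ := by
    refine le_iInf fun s => ?_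
    rw [le_himp_iff, h]
    exact inf_le_right
  exact le_antisymm (le_inf inf_le_left (H.mE_le τ' τ h2))
    (le_inf inf_le_left (H.mE_le τ τ' h1))

theorem TrExt.fo_mG (τ τ' : TX 𝒯 A) : (prj f (G τ ⊓ (G τ')ᶜ))ᶜ = (TQ 𝒯 A).le τ τ' := by
  apply le_antisymm
  · have h1 := (H.fo_iff τ (G τ') _).1 le_rfl
    refine le_iInf fun s => ?_
    rw [le_himp_iff]
    have h2 : (prj f (G τ ⊓ (G τ')ᶜ))ᶜ ⊓ τ.1 s =
        prj f (G τ ⊓ NDa f G s ⊓ f (prj f (G τ ⊓ (G τ')ᶜ))ᶜ) := by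
      rw [H.lin, H.prj_mG_ND, inf_comm]
    rw [h2, ← H.prj_mG_ND τ' s]
    refine H.pmono (le_inf ?_ (inf_le_left.trans inf_le_right))
    exact le_trans (le_inf inf_le_right (inf_le_left.trans inf_le_left)) h1
  · rw [H.fo_iff]
    exact H.mE_le τ τ' le_rfl

end

/-- Mixing of trees. -/
theorem exists_mix {𝒯 : Set (List ℕ) → Prop} (hT : TFam 𝒯) {A : Type u}
    [CompleteBooleanAlgebra A] (T : Type v) (a : T → A)
    (τ : T → TX 𝒯 A) (ha : ∀ t t', t ≠ t' → a t ⊓ a t' = ⊥) :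
    ∃ τ' : TX 𝒯 A, ∀ t s, a t ⊓ τ'.1 s = a t ⊓ (τ t).1 s := by
  classical
  obtain ⟨T0, hT0⟩ := hT.ne
  let f : List ℕ → A := fun s =>
    (⨆ t, a t ⊓ (τ t).1 s) ⊔ ((⨆ t, a t)ᶜ ⊓ if s ∈ T0 then ⊤ else ⊥)
  have hf : ∀ t s, a t ⊓ f s = a t ⊓ (τ t).1 s := by
    intro t s
    simp only [f]
    rw [inf_sup_left, inf_iSup_eq]
    apply le_antisymm
    · refine sup_le (iSup_le fun t' => ?_) ?_
      · by_cases h : t = t'
        · subst h
          exact le_inf inf_le_left (inf_le_right.trans inf_le_right)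
        · have h1 : a t ⊓ (a t' ⊓ (τ t').1 s) ≤ ⊥ := by
            rw [← ha t t' h]
            exact le_inf inf_le_left (inf_le_right.trans inf_le_left)
          exact h1.trans bot_le
      · have h1 : a t ⊓ ((⨆ t, a t)ᶜ ⊓ if s ∈ T0 then ⊤ else ⊥) ≤ ⊥ := by
          rw [← inf_compl_self (⨆ t, a t)]
          exact le_inf (inf_le_left.trans (le_iSup a t)) (inf_le_right.trans inf_le_left)
        exact h1.trans bot_le
    · refine le_sup_of_le_left (le_iSup_of_le t ?_)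
      exact le_inf inf_le_left le_rfl
  obtain ⟨v, hv⟩ := measurableSet_fam hT (F := fun t (g : Ult A) => f t ∈ g)
    fun t => measurable_mem A (f t)
  have h1 : v = ⊤ := by
    rw [← top_le_iff, ← sup_compl_eq_top (x := ⨆ t, a t)]
    refine sup_le (iSup_le fun t => le_of_ae ?_) (le_of_ae ?_)
    · filter_upwards [hv, (τ t).2] with g h1 h2 h3
      rw [h1]
      have h4 : {s | f s ∈ g} = {s | (τ t).1 s ∈ g} := by
        ext s
        simp only [Set.mem_ofPred_eq]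
        have h5 : a t ⊓ f s ∈ g ↔ a t ⊓ (τ t).1 s ∈ g := by rw [hf]
        rw [g.mem_inf, g.mem_inf] at h5
        tauto
      change 𝒯 {s | f s ∈ g}
      rw [h4]
      exact h2
    · filter_upwards [hv, ae_iSup a, ae_all fun s => ae_iSup fun t => a t ⊓ (τ t).1 s] with g h1
        h2 h3 h4
      rw [h1]
      have h5 : {s | f s ∈ g} = T0 := by
        ext s
        simp only [Set.mem_ofPred_eq, f]
        rw [g.mem_sup, h3, g.mem_inf]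
        have h6 : ¬ ∃ t, a t ⊓ (τ t).1 s ∈ g := by
          rintro ⟨t, ht⟩
          exact g.mem_compl.1 h4 (g.mono (le_iSup a t) (g.mem_inf.1 ht).1)
        by_cases h7 : s ∈ T0
        · simp [h7, h6, h4, g.mem_top]
        · simp [h7, h6, g.not_bot]
      change 𝒯 {s | f s ∈ g}
      rw [h5]
      exact hT0
  refine ⟨⟨f, ?_⟩, hf⟩
  filter_upwards [hv] with g h2
  rw [h1] at h2
  exact h2.1 g.mem_top

/-- The extension by the tree forcing. -/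
theorem trExt {𝒯 : Set (List ℕ) → Prop} (hT : TFam 𝒯) (A : Type u) [CompleteBooleanAlgebra A] :
    TrExt 𝒯 (tE 𝒯 A) (tG (𝒯 := 𝒯) (A := A)) := by
  have : Nonempty (TX 𝒯 A) := nonempty_TX hT
  refine ⟨hT, (all_tw1 A (TX 𝒯 A) (TQ 𝒯 A)).1, (all_tw1 A (TX 𝒯 A) (TQ 𝒯 A)).2.2.2.2.2,
    (all_tw1 A (TX 𝒯 A) (TQ 𝒯 A)).2.2.2.2.1, ?_⟩
  intro c hc
  rw [eq_iSup_pr c] at hc
  have h1 : ∃ p : {p : Tw (TQ 𝒯 A) // pr p ≤ c}, pr p.1 ≠ (⊥ : tC 𝒯 A) := by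
    by_contra hcon
    push Not at hcon
    exact hc (iSup_eq_bot.2 hcon)
  obtain ⟨⟨p, hp⟩, -⟩ := h1
  refine ⟨p.b, p.x, p.ne, ?_⟩
  have h2 := (all_tw1 A (TX 𝒯 A) (TQ 𝒯 A)).2.2.1 p
  exact h2 ▸ hp

/-- Module GND. -/
theorem gnd : GndStatement.{u} := by
  intro 𝒯 hT A _
  have H := trExt hT A
  exact ⟨nonempty_TX hT, H.nd_nil, H.nd_mono, H.nd_dis, H.nd_succ, H.nd_bot, H.prj_mG_ND,
    fun τ t => ND_ge τ t⟩

/-- Module GMX. -/
theorem gmx : GmxStatement.{u} := by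
  intro 𝒯 hT A _
  have H := trExt hT A
  exact ⟨H.exists_restrict, H.de, H.pj, fun T a τ h => exists_mix hT T a τ h,
    fun τ τ' a h => H.congr τ τ' a h, fun τ c a => H.fo_iff τ c a, fun τ τ' => H.fo_mG τ τ',
    fun F h1 h2 => exists_tree F h1 h2⟩

end Pool.Agent.Lib.MP_a78e1f_lc.H65
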