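import Pool.Agent.Lib.MP_a78e1f_lc.T.Iface

/-!
Module PRXT: tree forcings with systems preserve good pairs.
-/

set_option autoImplicit false

universe u v w

open Cardinal Filter MeasureTheory

namespace Pool.Agent.Lib.MP_a78e1f_lc.H65.Prxt

open Pool.Agent.Lib.MP_100a6c_lc
open Pool.Agent.Lib.MP_c5d73d_lc.F (pr)
open Pool.Agent.Lib.MP_e6fef2_lc
open Pool.Agent.Lib.MP_6d445e_gt
open Pool.Agent.Lib.MP_a78e1f_lc
open Pool.Agent.Lib.MP_6d445e_gt.H12 (club_all adn_lt mem_iSup_prop mem_iInf_prop prj_mono prj_inf'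
  prj_f f_top f_inf)
open Pool.Agent.Lib.MP_6d445e_gt.H38.SeqAux (ae_cut club_countable ae_all_in)

/-! ## Closure of `N` -/

/-- `N` is closed under pairs. -/
theorem club_pair : ∀ᶠ N in club.{u}, ∀ (T : Type u) (t : T), In N t →
    ∀ (T' : Type u) (t' : T'), In N t' → In N (t, t') := by
  obtain ⟨-, -, -, hconst, -, -, -, -, -, -, hcl⟩ := all_club.{u}
  refine hcl (fun T t N => ∀ (T' : Type u) (t' : T'), In N t' → In N (t, t')) fun T t => ?_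
  exact hcl (fun T' t' N => In N (t, t')) fun T' t' => hconst _ (t, t')

/-! ## Finite additivity -/

section

variable {A C : Type u} [CompleteBooleanAlgebra A] [CompleteBooleanAlgebra C]

/-- The first values of `x` are as prescribed by `s`. -/
def dec (x : ℕ → C) (n : ℕ) (s : Finset ℕ) : C :=
  ⨅ i ∈ Finset.range (n + 1), if i ∈ s then x i else (x i)ᶜ

theorem split_dec {π : C → A} (h0 : π ⊥ = ⊥) (hm : ∀ c c', c ≤ c' → π c ≤ π c')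
    (hs : ∀ c c', π (c ⊔ c') = π c ⊔ π c') (x : ℕ → C) (n : ℕ) (c : C) :
    π c ≤ ⨆ s : Finset ℕ, π (c ⊓ dec x n s) := by
  classical
  have h1 : c ≤ ⨆ s ∈ (Finset.range (n + 1)).powerset, c ⊓ dec x n s := by
    refine le_of_ae (Filter.Eventually.of_forall fun h hc => ?_)
    rw [h.mem_finset_iSup]
    refine ⟨(Finset.range (n + 1)).filter fun i => x i ∈ h, ?_, ?_⟩
    · rw [Finset.mem_powerset]
      exact Finset.filter_subset _ _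
    · rw [h.mem_inf]
      refine ⟨hc, ?_⟩
      unfold dec
      rw [h.mem_finset_iInf]
      intro i hi
      by_cases hx : x i ∈ h
      · rw [if_pos (Finset.mem_filter.2 ⟨hi, hx⟩)]
        exact hx
      · have h3 : i ∉ (Finset.range (n + 1)).filter fun i => x i ∈ h := fun h' =>
          hx (Finset.mem_filter.1 h').2
        rw [if_neg h3]
        exact h.mem_compl.2 hx
  have h2 : ∀ S : Finset (Finset ℕ), π (⨆ s ∈ S, c ⊓ dec x n s) ≤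
      ⨆ s : Finset ℕ, π (c ⊓ dec x n s) := by
    intro S
    induction S using Finset.induction_on with
    | empty => simp [h0]
    | insert s S _ ih =>
      rw [Finset.iSup_insert, hs]
      exact sup_le (le_iSup (fun s : Finset ℕ => π (c ⊓ dec x n s)) s) ih
  exact (hm _ _ h1).trans (h2 _)

theorem dec_cases (x : ℕ → C) (n : ℕ) (s : Finset ℕ) (c : C) (i : ℕ) (hi : i ≤ n)
    (hc : c ≤ dec x n s) : c ≤ x i ∨ c ⊓ x i = ⊥ := by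
  have h1 : dec x n s ≤ if i ∈ s then x i else (x i)ᶜ :=
    (iInf_le _ i).trans (iInf_le _ (Finset.mem_range.2 (Nat.lt_succ_of_le hi)))
  by_cases h : i ∈ s
  · rw [if_pos h] at h1
    exact Or.inl (hc.trans h1)
  · rw [if_neg h] at h1
    right
    rw [← le_bot_iff, ← compl_inf_self (x i)]
    exact inf_le_inf_right _ (hc.trans h1)

end

/-! ## The abstract extension -/

section

variable (𝒯 : Set (List ℕ) → Prop) (ok : List ℕ → List ℕ → Prop) {A C : Type u}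
  [CompleteBooleanAlgebra A] [CompleteBooleanAlgebra C] (f : A → C) (G : TX 𝒯 A → C)
  (Nd : List ℕ → C)

/-- Systems, for the abstract extension. -/
structure SysA (Θ : Type u) (nd : Θ → List ℕ) (lt : Θ → Θ → Prop)
    (Λ : Set C → Θ → RA C → RA A) : Prop where
  wf : WellFounded lt
  add : ∀ D, sSup D = ⊤ → ∀ θ, AddM (rmap f) (Λ D θ)
  inc : ∀ D, sSup D = ⊤ → ∀ θ e, ¬ Inc (nd θ) → Λ D θ e = ⊥
  ini : ∀ D, sSup D = ⊤ → ∀ e, prj (rmap f) e ≤ ⨆ θ, Λ D θ e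
  nod : ∀ D, sSup D = ⊤ → ∀ θ e (a : A) (τ : TX 𝒯 A), e ≤ kap (f a ⊓ G τ) →
    Λ D θ e ≤ kap (a ⊓ τ.1 (nd θ))
  nxt : ∀ D D', sSup D = ⊤ → sSup D' = ⊤ → ∀ θ e (E : Set (Pt C)), MeasurableSet E →
    e ⊓ mkR E = ⊥ → ∀ m, Λ D θ e ≤
      (⨆ θ', ⨆ _ : lt θ' θ ∧ ∃ l, m ≤ l ∧ ok (nd θ ++ [l]) (nd θ'), Λ D θ' e) ⊔
      ⨆ θ', ⨆ _ : ∃ l, m ≤ l ∧ ok (nd θ ++ [l]) (nd θ'), ⨆ a : A, ⨆ τ : TX 𝒯 A,
        ⨆ _ : ∃ d ∈ D, f a ⊓ G τ ≤ d, ⨆ ε : List Bool → C, ⨆ _ : Avd ε E,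
          Λ D' θ' (e ⊓ kap (f a ⊓ G τ) ⊓ cl ε)

/-- Trees of paths, for the abstract extension. -/
def TrsA : Prop :=
  ∀ (X : Type u) [Countable X] (nd : X → List ℕ)
  (gd : X → A) (ed : ℕ → X → X → A), PHyp ok nd gd ed → ∀ s0 a, a ≤ gd s0 →
  ∃ (P : List X → A) (τ : TX 𝒯 A),
    (∀ᶠ g in ae A, a ∈ g → PTr ok nd ed s0 P g) ∧
    (∀ᶠ h in ae C, f a ⊓ G τ ∈ h → ∀ g : Ult A, (∀ b, b ∈ g ↔ f b ∈ h) →
      ∃ π : ℕ → List X, π 0 = [s0] ∧ (∀ n, ∃ s, π (n + 1) = s :: π n) ∧ (∀ n, P (π n) ∈ g) ∧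
        ∀ s ρ, P (s :: ρ) ∈ g → (Nd (nd s) ∈ h ↔ s :: ρ = π ρ.length)) ∧
    (∀ σ : TX 𝒯 A, ∀ᶠ h in ae C, f a ⊓ G τ ∈ h →
      ∀ g : Ult A, (∀ b, b ∈ g ↔ f b ∈ h) → ∀ s ρ, P (s :: ρ) ∈ g → Nd (nd s) ∈ h →
        (∀ s' ρ', P (s' :: ρ') ∈ g → s :: ρ <:+ s' :: ρ' → σ.1 (nd s') ∈ g) → G σ ∈ h)

end

/-! ## Weights -/

/-- Parameters of the steps of type A. -/
abbrev PaA (𝒯 : Set (List ℕ) → Prop) (A C : Type u) [CompleteBooleanAlgebra A]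
    [CompleteBooleanAlgebra C] (Θ : Type u) : Type u :=
  Θ × A × TX 𝒯 A × (List Bool → C) × Finset ℕ

/-- Parameters of the steps. -/
abbrev Pa (𝒯 : Set (List ℕ) → Prop) (A C : Type u) [CompleteBooleanAlgebra A]
    [CompleteBooleanAlgebra C] (Θ : Type u) : Type u := Θ ⊕ PaA 𝒯 A C Θ

section

variable {𝒯 : Set (List ℕ) → Prop} {ok : List ℕ → List ℕ → Prop} {A C : Type u}
  [CompleteBooleanAlgebra A] [CompleteBooleanAlgebra C] {f : A → C} {G : TX 𝒯 A → C}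
  {Nd : List ℕ → C} {Θ : Type u} {nd : Θ → List ℕ} {lt : Θ → Θ → Prop}
  {Λ : Set C → Θ → RA C → RA A}

variable (f G) in
/-- The condition after a step of type A. -/
noncomputable def eA (e : RA C) (x y : ℕ → RA C) (z : ℕ → RA A) (n k : ℕ) (p : PaA 𝒯 A C Θ) :
    RA C :=
  e ⊓ agr (rmap f) z x k ⊓ kap (f p.2.1 ⊓ G p.2.2.1) ⊓ cl p.2.2.2.1 ⊓
    dec (adn x y k) n p.2.2.2.2

/-- The data of a step. -/
abbrev Tup (A C Θ : Type u) [CompleteBooleanAlgebra A] [CompleteBooleanAlgebra C] : Type u :=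
  Θ × RA C × (ℕ → RA C) × (ℕ → RA C) × (ℕ → RA A) × Set C × Set C × Set (Pt C)

variable (f G nd lt Λ ok) in
/-- The weights of the step. -/
noncomputable def W1 (m n : ℕ) (q : Tup A C Θ) (k : ℕ) : Pa 𝒯 A C Θ → RA A
  | Sum.inl θ' => ⨆ _ : lt θ' q.1 ∧ ∃ l, m ≤ l ∧ ok (nd q.1 ++ [l]) (nd θ'),
      Λ q.2.2.2.2.2.1 θ' (q.2.1 ⊓ agr (rmap f) q.2.2.2.2.1 q.2.2.1 k)
  | Sum.inr p => ⨆ _ : (∃ l, m ≤ l ∧ ok (nd q.1 ++ [l]) (nd p.1)) ∧
      (∃ d ∈ q.2.2.2.2.2.1, f p.2.1 ⊓ G p.2.2.1 ≤ d) ∧ Avd p.2.2.2.1 q.2.2.2.2.2.2.2,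
      Λ q.2.2.2.2.2.2.1 p.1 (eA f G q.2.1 q.2.2.1 q.2.2.2.1 q.2.2.2.2.1 n k p)

variable (f G) in
/-- The interpretations of the step. -/
noncomputable def B1 (zz : Set C → Θ → RA C → (ℕ → RA C) → (ℕ → RA A) → ℕ → RA A) (n : ℕ)
    (q : Tup A C Θ) (k : ℕ) : Pa 𝒯 A C Θ → ℕ → RA A
  | Sum.inl θ' => zz q.2.2.2.2.2.1 θ' q.2.1 q.2.2.1 q.2.2.2.2.1
  | Sum.inr p => zz q.2.2.2.2.2.2.1 p.1 (eA f G q.2.1 q.2.2.1 q.2.2.2.1 q.2.2.2.2.1 n k p)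
      (adn q.2.2.1 q.2.2.2.1 k) q.2.2.2.2.1

variable (f Λ) in
/-- The weights of the start. -/
noncomputable def W0 (q : Set C × RA C × (ℕ → RA C) × (ℕ → RA A)) (k : ℕ) (θ : Θ) : RA A :=
  Λ q.1 θ (q.2.1 ⊓ agr (rmap f) q.2.2.2 q.2.2.1 k)

/-- The sequence lemma for `N`. -/
def SeqP (N : Set El.{u}) (A T : Type u) [CompleteBooleanAlgebra A] : Prop :=
  ∀ (w : ℕ → T → RA A) (b : ℕ → T → ℕ → RA A) (z : ℕ → RA A) (r : ℕ → ℕ), In N w → In N b →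
    In N z → (∀ k t, w k t ≤ agr (fun a : RA A => a) z (b k t) k) →
    (∀ k t, SlOn r (w k t) (b k t)) →
    ∀ X Y : ℕ → A, ∀ᶠ g in ae A, gcX N X Y ∈ g → disX 0 z Y X ∈ g →
      (∀ k, ev X (⨆ t, w k t) ∈ g) →
      ∀ m, ∃ k, m ≤ k ∧ ∃ t, In N t ∧ ev X (w k t) ∈ g ∧ disX 0 (b k t) Y X ∈ g

/-- The verification for `N`. -/
def VerP (N : Set El.{u}) (C : Type u) [CompleteBooleanAlgebra C] : Prop :=
  ∀ X : ℕ → C, ∀ᶠ h in ae C, ∀ e : ℕ → RA C, (∀ n, In N (e n)) → (∀ n, e (n + 1) ≤ e n) →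
    (∀ E : Set (Pt C), In N E → MeasurableSet E → nl E →
      ∃ n, ∃ ε : List Bool → C, In N ε ∧ Avd ε E ∧ e n ≤ cl ε) →
    (∀ n, ∃ k, ∃ ε : List Bool → C, In N ε ∧ Avd ε (rep (e n))ᶜ ∧ e k ≤ cl ε) →
    (∀ D : Set C, In N D → sSup D = ⊤ → ∃ n, ∃ d ∈ D, In N d ∧ d ∈ h ∧ e n ≤ kap d) →
    (∀ n k, e n ⊓ cy (res (vx X h) k) ≠ ⊥) →
      rn N X ∈ h ∧ ∀ n, ev X (e n) ∈ h

variable (f G nd lt Λ ok) in
/-- Everything `N` has to satisfy. -/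
structure NP (zz : Set C → Θ → RA C → (ℕ → RA C) → (ℕ → RA A) → ℕ → RA A) (N : Set El.{u}) :
    Prop where
  nc : N.Countable
  seq0 : SeqP N A Θ
  seq1 : SeqP N A (Pa 𝒯 A C Θ)
  evA : ∀ X : ℕ → A, ∀ᶠ g in ae A, rn N X ∈ g → EvG N X g
  evC : ∀ X : ℕ → C, ∀ᶠ g in ae C, rn N X ∈ g → EvG N X g
  ver : VerP N C
  pair : ∀ (T : Type u) (t : T), In N t → ∀ (T' : Type u) (t' : T'), In N t' → In N (t, t')
  w0 : ∀ q, In N q → In N (W0 f Λ q)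
  b0 : ∀ q : Set C × RA C × (ℕ → RA C) × (ℕ → RA A), In N q →
    In N (fun (_ : ℕ) (θ : Θ) => zz q.1 θ q.2.1 q.2.2.1 q.2.2.2)
  w1 : ∀ (m n : ℕ) q, In N q → In N (W1 (𝒯 := 𝒯) ok f G nd lt Λ m n q)
  b1 : ∀ (n : ℕ) q, In N q → In N (B1 (𝒯 := 𝒯) f G zz n q)
  w0t : ∀ (w : ℕ → Θ → RA A), In N w → ∀ k, In N (⨆ t, w k t) ∧ ∀ t, In N t → In N (w k t)
  w1t : ∀ (w : ℕ → Pa 𝒯 A C Θ → RA A), In N w → ∀ k, In N (⨆ t, w k t) ∧
    ∀ t, In N t → In N (w k t)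
  b0t : ∀ (b : ℕ → Θ → ℕ → RA A), In N b → ∀ k t, In N t → In N (b k t)
  b1t : ∀ (b : ℕ → Pa 𝒯 A C Θ → ℕ → RA A), In N b → ∀ k t, In N t → In N (b k t)
  pa0 : ∀ θ : Θ, In N (Sum.inl θ : Pa 𝒯 A C Θ) → In N θ
  pa1 : ∀ p : PaA 𝒯 A C Θ, In N (Sum.inr p : Pa 𝒯 A C Θ) → In N p ∧ In N p.1 ∧ In N p.2.1 ∧
    In N p.2.2.1 ∧ In N p.2.2.2.1
  itpN : ∀ q : Set C × Θ × RA C × (ℕ → RA C) × (ℕ → RA A), In N q →
    In N (itp (rmap f) (Λ q.1 q.2.1) q.2.2.1 q.2.2.2.1 q.2.2.2.2)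
  prjN : ∀ q : RA C × (ℕ → RA C) × (ℕ → RA A), In N q →
    In N (itp (rmap f) (prj (rmap f)) q.1 q.2.1 q.2.2) ∧
      ∀ k, In N (prj (rmap f) (q.1 ⊓ agr (rmap f) q.2.2 q.2.1 k))
  lamN : ∀ q : Set C × Θ × RA C, In N q → In N (Λ q.1 q.2.1 q.2.2)
  lamK : ∀ q : Set C × Θ × RA C × (ℕ → RA C) × (ℕ → RA A), In N q →
    ∀ k, In N (Λ q.1 q.2.1 (q.2.2.1 ⊓ agr (rmap f) q.2.2.2.2 q.2.2.2.1 k))
  cyN : ∀ σ : List Bool, In N (cy σ : RA A)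
  zN : ∀ z : ℕ → RA A, In N z → ∀ i, In N (z i)
  xN : ∀ x : ℕ → RA C, In N x → ∀ i, In N (x i)
  exN : ∀ e e' : RA C, In N e → In N e' → In N (e ⊓ e')
  adN : ∀ (k : ℕ) (x y : ℕ → RA C), In N x → In N y → In N (adn x y k)
  aN : ∀ q : A × TX 𝒯 A × Θ, In N q → In N (q.1 ⊓ q.2.1.1 (nd q.2.2))
  EN : ∀ (E : Set (Pt C)) (e : RA C), In N E → In N e → In N (E ∪ (rep e)ᶜ)
  dN : ∀ q : Set C × A × TX 𝒯 A, In N q → (∃ d ∈ q.1, f q.2.1 ⊓ G q.2.2 ≤ d) →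
    ∃ d ∈ q.1, In N d ∧ f q.2.1 ⊓ G q.2.2 ≤ d
  eAN : ∀ (n k : ℕ) (q : Tup A C Θ) (p : PaA 𝒯 A C Θ), In N q → In N p →
    In N (eA f G q.2.1 q.2.2.1 q.2.2.2.1 q.2.2.2.2.1 n k p)
  kpN : ∀ a : A, In N a → In N (kap a)
  unN : In N (Set.univ : Set C)
  emN : In N (∅ : Set (Pt C))

theorem np (hseq : SeqxStatement.{u}) (hev : EvxStatement.{u}) (hver : VerStatement.{u})
    (zz : Set C → Θ → RA C → (ℕ → RA C) → (ℕ → RA A) → ℕ → RA A) :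
    ∀ᶠ N in club, NP ok f G nd lt Λ zz N := by
  obtain ⟨-, hcount, -, hconst, hnorm, hf1, hf2, -⟩ := all_club.{u}
  have e1 := hseq A Θ
  have e2 := hseq A (Pa 𝒯 A C Θ)
  have e3 := (hev A).2.1
  have e4 := (hev C).2.1
  have e5 := hver C
  have e6 := club_pair.{u}
  have e7 := hf1 (Set C × RA C × (ℕ → RA C) × (ℕ → RA A)) _ (W0 (Θ := Θ) f Λ)
  have e8 := hf1 (Set C × RA C × (ℕ → RA C) × (ℕ → RA A)) _ (fun q (_ : ℕ) (θ : Θ) =>
    zz q.1 θ q.2.1 q.2.2.1 q.2.2.2)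
  have e9 : ∀ᶠ N in club, ∀ i : ℕ × ℕ, ∀ q : Tup A C Θ, In N q →
      In N (W1 (𝒯 := 𝒯) ok f G nd lt Λ i.1 i.2 q) :=
    club_all fun i => hf1 _ _ (W1 (𝒯 := 𝒯) ok f G nd lt Λ i.1 i.2)
  have e10 : ∀ᶠ N in club, ∀ n : ℕ, ∀ q : Tup A C Θ, In N q → In N (B1 (𝒯 := 𝒯) f G zz n q) :=
    club_all fun n => hf1 _ _ (B1 (𝒯 := 𝒯) f G zz n)
  have e11 : ∀ᶠ N in club, ∀ k : ℕ, ∀ w : ℕ → Θ → RA A, In N w → In N (⨆ t, w k t) :=
    club_all fun k => hf1 (ℕ → Θ → RA A) _ (fun w => ⨆ t, w k t)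
  have e12 : ∀ᶠ N in club, ∀ k : ℕ, ∀ (w : ℕ → Θ → RA A) (t : Θ), In N w → In N t → In N (w k t) :=
    club_all fun k => hf2 (ℕ → Θ → RA A) Θ _ (fun w t => w k t)
  have e13 : ∀ᶠ N in club, ∀ k : ℕ, ∀ w : ℕ → Pa 𝒯 A C Θ → RA A, In N w → In N (⨆ t, w k t) :=
    club_all fun k => hf1 (ℕ → Pa 𝒯 A C Θ → RA A) _ (fun w => ⨆ t, w k t)
  have e14 : ∀ᶠ N in club, ∀ k : ℕ, ∀ (w : ℕ → Pa 𝒯 A C Θ → RA A) (t : Pa 𝒯 A C Θ), In N w →
      In N t → In N (w k t) :=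
    club_all fun k => hf2 (ℕ → Pa 𝒯 A C Θ → RA A) (Pa 𝒯 A C Θ) _ (fun w t => w k t)
  have e15 : ∀ᶠ N in club, ∀ k : ℕ, ∀ (b : ℕ → Θ → ℕ → RA A) (t : Θ), In N b → In N t →
      In N (b k t) :=
    club_all fun k => hf2 (ℕ → Θ → ℕ → RA A) Θ _ (fun b t => b k t)
  have e16 : ∀ᶠ N in club, ∀ k : ℕ, ∀ (b : ℕ → Pa 𝒯 A C Θ → ℕ → RA A) (t : Pa 𝒯 A C Θ), In N b →
      In N t → In N (b k t) :=
    club_all fun k => hf2 (ℕ → Pa 𝒯 A C Θ → ℕ → RA A) (Pa 𝒯 A C Θ) _ (fun b t => b k t)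
  have e17 : ∀ᶠ N in club, ∀ t : Pa 𝒯 A C Θ, In N t → (∀ θ, t = Sum.inl θ → In N θ) ∧
      ∀ p, t = Sum.inr p → In N p ∧ In N p.1 ∧ In N p.2.1 ∧ In N p.2.2.1 ∧ In N p.2.2.2.1 := by
    refine hnorm (Pa 𝒯 A C Θ) (fun t N => (∀ θ, t = Sum.inl θ → In N θ) ∧
      ∀ p, t = Sum.inr p → In N p ∧ In N p.1 ∧ In N p.2.1 ∧ In N p.2.2.1 ∧ In N p.2.2.2.1) ?_
    rintro (θ | p)
    · filter_upwards [hconst _ θ] with N h1
      refine ⟨?_, ?_⟩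
      · rintro θ' h
        rw [← Sum.inl.inj h]
        exact h1
      · rintro p h
        exact absurd h (by simp)
    · filter_upwards [hconst _ p, hconst _ p.1, hconst _ p.2.1, hconst _ p.2.2.1,
        hconst _ p.2.2.2.1] with N h1 h2 h3 h4 h5
      refine ⟨?_, ?_⟩
      · rintro θ' h
        exact absurd h (by simp)
      · rintro p' h
        rw [← Sum.inr.inj h]
        exact ⟨h1, h2, h3, h4, h5⟩
  have e18 := hf1 (Set C × Θ × RA C × (ℕ → RA C) × (ℕ → RA A)) _ (fun q =>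
    itp (rmap f) (Λ q.1 q.2.1) q.2.2.1 q.2.2.2.1 q.2.2.2.2)
  have e19 := hf1 (RA C × (ℕ → RA C) × (ℕ → RA A)) _ (fun q =>
    itp (rmap f) (prj (rmap f)) q.1 q.2.1 q.2.2)
  have e20 : ∀ᶠ N in club, ∀ k : ℕ, ∀ q : RA C × (ℕ → RA C) × (ℕ → RA A), In N q →
      In N (prj (rmap f) (q.1 ⊓ agr (rmap f) q.2.2 q.2.1 k)) :=
    club_all fun k => hf1 (RA C × (ℕ → RA C) × (ℕ → RA A)) _ (fun q =>
      prj (rmap f) (q.1 ⊓ agr (rmap f) q.2.2 q.2.1 k))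
  have e21 := hf1 (Set C × Θ × RA C) _ (fun q => Λ q.1 q.2.1 q.2.2)
  have e22 : ∀ᶠ N in club, ∀ k : ℕ, ∀ q : Set C × Θ × RA C × (ℕ → RA C) × (ℕ → RA A), In N q →
      In N (Λ q.1 q.2.1 (q.2.2.1 ⊓ agr (rmap f) q.2.2.2.2 q.2.2.2.1 k)) :=
    club_all fun k => hf1 (Set C × Θ × RA C × (ℕ → RA C) × (ℕ → RA A)) _ (fun q =>
      Λ q.1 q.2.1 (q.2.2.1 ⊓ agr (rmap f) q.2.2.2.2 q.2.2.2.1 k))
  have e23 : ∀ᶠ N in club, ∀ σ : List Bool, In N (cy σ : RA A) :=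
    club_all fun σ => hconst _ (cy σ : RA A)
  have e24 : ∀ᶠ N in club, ∀ i : ℕ, ∀ z : ℕ → RA A, In N z → In N (z i) :=
    club_all fun i => hf1 (ℕ → RA A) _ (fun z => z i)
  have e25 : ∀ᶠ N in club, ∀ i : ℕ, ∀ z : ℕ → RA C, In N z → In N (z i) :=
    club_all fun i => hf1 (ℕ → RA C) _ (fun z => z i)
  have e26 := hf2 (RA C) (RA C) _ (fun e e' => e ⊓ e')
  have e27 : ∀ᶠ N in club, ∀ (k : ℕ) (x y : ℕ → RA C), In N x → In N y → In N (adn x y k) :=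
    club_all fun k => hf2 (ℕ → RA C) (ℕ → RA C) (ℕ → RA C) (fun x y => adn x y k)
  have e28 := hf1 (A × TX 𝒯 A × Θ) _ (fun q => q.1 ⊓ q.2.1.1 (nd q.2.2))
  have e29 := hf2 (Set (Pt C)) (RA C) _ (fun E e => E ∪ (rep e)ᶜ)
  have e30 : ∀ᶠ N in club, ∀ q : Set C × A × TX 𝒯 A, In N q →
      (∃ d ∈ q.1, f q.2.1 ⊓ G q.2.2 ≤ d) → ∃ d ∈ q.1, In N d ∧ f q.2.1 ⊓ G q.2.2 ≤ d := by
    refine hnorm (Set C × A × TX 𝒯 A) (fun q N => (∃ d ∈ q.1, f q.2.1 ⊓ G q.2.2 ≤ d) →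
      ∃ d ∈ q.1, In N d ∧ f q.2.1 ⊓ G q.2.2 ≤ d) ?_
    intro q
    by_cases h : ∃ d ∈ q.1, f q.2.1 ⊓ G q.2.2 ≤ d
    · obtain ⟨d, hd, hd'⟩ := h
      filter_upwards [hconst _ d] with N h1 _
      exact ⟨d, hd, h1, hd'⟩
    · exact Filter.Eventually.of_forall fun N h' => absurd h' h
  have e31 : ∀ᶠ N in club, ∀ i : ℕ × ℕ, ∀ (q : Tup A C Θ) (p : PaA 𝒯 A C Θ), In N q → In N p →
      In N (eA f G q.2.1 q.2.2.1 q.2.2.2.1 q.2.2.2.2.1 i.1 i.2 p) :=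
    club_all fun i => hf2 (Tup A C Θ) (PaA 𝒯 A C Θ) _ (fun q p =>
      eA f G q.2.1 q.2.2.1 q.2.2.2.1 q.2.2.2.2.1 i.1 i.2 p)
  have e32 := hconst _ (Set.univ : Set C)
  have e33 := hconst _ (∅ : Set (Pt C))
  have e34 := hf1 A (RA A) kap
  filter_upwards [hcount, e1, e2, e3, e4, e5, e6, e7, e8, e9, e10, e11, e12, e13, e14, e15, e16,
    e17, e18, e19, e20, e21, e22, e23, e24, e25, e26, e27, e28, e29, e30, e31, e32, e33,
    e34] with N hcount e1 e2 e3 e4 e5 e6 e7 e8 e9 e10 e11 e12 e13 e14 e15 e16 e17 e18 e19 e20 e21 e22 e23 e24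
    e25 e26 e27 e28 e29 e30 e31 e32 e33 e34
  exact {
    nc := hcount
    seq0 := e1
    seq1 := e2
    evA := e3
    evC := e4
    ver := e5
    pair := e6
    w0 := e7
    b0 := e8
    w1 := fun m n q hq => e9 (m, n) q hq
    b1 := e10
    w0t := fun w hw k => ⟨e11 k w hw, fun t ht => e12 k w t hw ht⟩
    w1t := fun w hw k => ⟨e13 k w hw, fun t ht => e14 k w t hw ht⟩
    b0t := fun b hb k t ht => e15 k b t hb ht
    b1t := fun b hb k t ht => e16 k b t hb ht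
    pa0 := fun θ hθ => (e17 _ hθ).1 θ rfl
    pa1 := fun p hp => (e17 _ hp).2 p rfl
    itpN := e18
    prjN := fun q hq => ⟨e19 q hq, fun k => e20 k q hq⟩
    lamN := e21
    lamK := fun q hq k => e22 k q hq
    cyN := e23
    zN := fun z hz i => e24 i z hz
    xN := fun z hz i => e25 i z hz
    exN := e26
    adN := e27
    aN := e28
    EN := e29
    dN := e30
    eAN := fun n k q p hq hp => e31 (n, k) q p hq hp
    kpN := e34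
    unN := e32
    emN := e33 }

/-! ## The weights -/

/-- `zz` chooses interpretations which follow given names. -/
def IsZZ (f : A → C) (Λ : Set C → Θ → RA C → RA A)
    (zz : Set C → Θ → RA C → (ℕ → RA C) → (ℕ → RA A) → ℕ → RA A) : Prop :=
  ∀ D θ e x z, sSup D = ⊤ → Λ D θ e ≤ itp (rmap f) (Λ D θ) e x (zz D θ e x z) ∧
    ∀ k, Λ D θ (e ⊓ agr (rmap f) z x k) ≤ agr (fun a : RA A => a) z (zz D θ e x z) k

theorem exists_zz (hlb : LbStatement.{u}) (hF : IsCE (rmap f))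
    (H : SysA 𝒯 ok f G Θ nd lt Λ) : ∃ zz, IsZZ f Λ zz := by
  have h1 : ∀ (D : Set C) (θ : Θ) (e : RA C) (x : ℕ → RA C) (z : ℕ → RA A), ∃ z' : ℕ → RA A,
      sSup D = ⊤ → Λ D θ e ≤ itp (rmap f) (Λ D θ) e x z' ∧
        ∀ k, Λ D θ (e ⊓ agr (rmap f) z x k) ≤ agr (fun a : RA A => a) z z' k := by
    intro D θ e x z
    by_cases hD : sSup D = ⊤
    · obtain ⟨z', h1, h2⟩ := hlb (RA A) (RA C) (rmap f) hF (Λ D θ) (H.add D hD θ) e x z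
      exact ⟨z', fun _ => ⟨h1, h2⟩⟩
    · exact ⟨fun _ => ⊥, fun h => absurd h hD⟩
  choose zz hzz using h1
  exact ⟨zz, hzz⟩

theorem bot_inf_mkR (hra : RapiStatement.{u}) (hre : RepStatement.{u}) (e : RA C)
    (E : Set (Pt C)) (hE : MeasurableSet E) (hn : nl E) :
    MeasurableSet (E ∪ (rep e)ᶜ) ∧ e ⊓ mkR (E ∪ (rep e)ᶜ) = ⊥ := by
  obtain ⟨h1, h2⟩ := (hre C).1 e
  obtain ⟨r1, -, r3, -⟩ := hra C
  refine ⟨hE.union h1.compl, ?_⟩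
  have h3 : mkR (E ∪ (rep e)ᶜ) ≤ eᶜ := by
    have h4 : mkR (E ∪ (rep e)ᶜ) ≤ mkR (rep e)ᶜ := by
      rw [r1 _ _ (hE.union h1.compl) h1.compl]
      refine nl_mono ?_ hn
      rintro p ⟨h5 | h5, h6⟩
      · exact h5
      · exact absurd h5 h6
    rwa [r3 _ h1, h2] at h4
  rw [← le_bot_iff, ← inf_compl_self e]
  exact inf_le_inf_left _ h3

theorem sup_W1 (hI : ItpStatement.{u}) (hF : IsCE (rmap f))
    (H : SysA 𝒯 ok f G Θ nd lt Λ) (m n : ℕ) (θ : Θ) (e : RA C) (x y : ℕ → RA C) (z : ℕ → RA A)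
    (D D' : Set C) (hD : sSup D = ⊤) (hD' : sSup D' = ⊤) (E : Set (Pt C)) (hE : MeasurableSet E)
    (hEe : e ⊓ mkR E = ⊥) (k : ℕ) :
    Λ D θ (e ⊓ agr (rmap f) z x k) ≤
      ⨆ t, W1 (𝒯 := 𝒯) ok f G nd lt Λ m n (θ, e, x, y, z, D, D', E) k t := by
  obtain ⟨-, -, -, -, i5⟩ := hI (RA A) (RA C) (rmap f) hF
  refine (H.nxt D D' hD hD' θ _ E hE ?_ m).trans (sup_le ?_ ?_)
  · rw [← le_bot_iff, ← hEe]
    exact inf_le_inf_right _ inf_le_left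
  · refine iSup_le fun θ' => iSup_le fun h => ?_
    exact le_iSup_of_le (Sum.inl θ') (le_iSup_of_le h le_rfl)
  · refine iSup_le fun θ' => iSup_le fun h => iSup_le fun a => iSup_le fun τ => iSup_le fun hd =>
      iSup_le fun ε => iSup_le fun hε => ?_
    obtain ⟨j1, j2, -⟩ := i5 (Λ D' θ') (H.add D' hD' θ')
    refine (split_dec j1 j2 (H.add D' hD' θ').sup (adn x y k) n _).trans (iSup_le fun s => ?_)
    exact le_iSup_of_le (Sum.inr (θ', a, τ, ε, s)) (le_iSup_of_le ⟨h, hd, hε⟩ le_rfl)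

theorem agr_adn (x y : ℕ → RA C) (z : ℕ → RA A) (k : ℕ) :
    agr (rmap f) z (adn x y k) k = agr (rmap f) z x k := by
  unfold agr
  refine iInf_congr fun j => iInf_congr fun hj => ?_
  rw [adn_lt x y hj]

theorem eA_le (e : RA C) (x y : ℕ → RA C) (z : ℕ → RA A) (n k : ℕ) (p : PaA 𝒯 A C Θ) :
    eA f G e x y z n k p ≤ e ⊓ agr (rmap f) z x k :=
  inf_le_left.trans (inf_le_left.trans inf_le_left)

theorem W1_agr
    {zz : Set C → Θ → RA C → (ℕ → RA C) → (ℕ → RA A) → ℕ → RA A} (hzz : IsZZ f Λ zz) (m n : ℕ)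
    (θ : Θ) (e : RA C) (x y : ℕ → RA C) (z : ℕ → RA A)
    (D D' : Set C) (hD : sSup D = ⊤) (hD' : sSup D' = ⊤) (E : Set (Pt C)) (k : ℕ)
    (t : Pa 𝒯 A C Θ) :
    W1 (𝒯 := 𝒯) ok f G nd lt Λ m n (θ, e, x, y, z, D, D', E) k t ≤
      agr (fun a : RA A => a) z (B1 (𝒯 := 𝒯) f G zz n (θ, e, x, y, z, D, D', E) k t) k := by
  rcases t with θ' | p
  · refine iSup_le fun _ => ?_
    exact (hzz D θ' e x z hD).2 k
  · refine iSup_le fun _ => ?_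
    have h1 := (hzz D' p.1 (eA f G e x y z n k p) (adn x y k) z hD').2 k
    have h2 : eA f G e x y z n k p ⊓ agr (rmap f) z (adn x y k) k = eA f G e x y z n k p := by
      refine le_antisymm inf_le_left (le_inf le_rfl ?_)
      rw [agr_adn]
      exact (eA_le e x y z n k p).trans inf_le_right
    rw [h2] at h1
    exact h1

theorem W1_le (hI : ItpStatement.{u}) (hF : IsCE (rmap f)) (H : SysA 𝒯 ok f G Θ nd lt Λ)
    {zz : Set C → Θ → RA C → (ℕ → RA C) → (ℕ → RA A) → ℕ → RA A} (hzz : IsZZ f Λ zz) (m n : ℕ)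
    (θ : Θ) (e : RA C) (x y : ℕ → RA C) (z : ℕ → RA A)
    (D D' : Set C) (hD : sSup D = ⊤) (hD' : sSup D' = ⊤) (E : Set (Pt C)) (k : ℕ) :
    (∀ θ', W1 (𝒯 := 𝒯) ok f G nd lt Λ m n (θ, e, x, y, z, D, D', E) k (Sum.inl θ') ≤
      itp (rmap f) (Λ D θ') e x (zz D θ' e x z)) ∧
    ∀ p : PaA 𝒯 A C Θ, W1 (𝒯 := 𝒯) ok f G nd lt Λ m n (θ, e, x, y, z, D, D', E) k (Sum.inr p) ≤
      itp (rmap f) (Λ D' p.1) (eA f G e x y z n k p) (adn x y k)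
        (zz D' p.1 (eA f G e x y z n k p) (adn x y k) z) := by
  obtain ⟨-, -, -, -, i5⟩ := hI (RA A) (RA C) (rmap f) hF
  constructor
  · intro θ'
    refine iSup_le fun _ => ?_
    obtain ⟨j1, j2, -⟩ := i5 (Λ D θ') (H.add D hD θ')
    exact (j2 _ _ inf_le_left).trans (hzz D θ' e x z hD).1
  · intro p
    refine iSup_le fun _ => ?_
    exact (hzz D' p.1 (eA f G e x y z n k p) (adn x y k) z hD').1

theorem W1_sl (hS : SlaStatement.{u}) (hI : ItpStatement.{u}) (hF : IsCE (rmap f))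
    (H : SysA 𝒯 ok f G Θ nd lt Λ)
    {zz : Set C → Θ → RA C → (ℕ → RA C) → (ℕ → RA A) → ℕ → RA A} (hzz : IsZZ f Λ zz) (m n : ℕ)
    (θ : Θ) (e : RA C) (x y : ℕ → RA C) (z : ℕ → RA A)
    (D D' : Set C) (hD : sSup D = ⊤) (hD' : sSup D' = ⊤) (E : Set (Pt C)) (r r' : ℕ → ℕ)
    (hr : SlOn r ⊤ x) (hr' : SlOn r' ⊤ y) (k : ℕ)
    (t : Pa 𝒯 A C Θ) :
    SlOn (fun p => r p + r' p)
      (W1 (𝒯 := 𝒯) ok f G nd lt Λ m n (θ, e, x, y, z, D, D', E) k t)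
      (B1 (𝒯 := 𝒯) f G zz n (θ, e, x, y, z, D, D', E) k t) := by
  obtain ⟨-, -, -, -, i5⟩ := hI (RA A) (RA C) (rmap f) hF
  obtain ⟨_, s2, s3, s4, _, _⟩ := hS (RA C)
  obtain ⟨_, t2, _, _, _, _⟩ := hS (RA A)
  obtain ⟨w1, w2⟩ := W1_le hI hF H hzz m n θ e x y z D D' hD hD' E k
  rcases t with θ' | p
  · obtain ⟨-, -, -, -, -, -, -, -, j9⟩ := i5 (Λ D θ') (H.add D hD θ')
    have h1 := j9 e x (zz D θ' e x z) r (s2 r r ⊤ e x (fun _ => le_rfl) le_top hr)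
    exact t2 _ _ _ _ _ (fun _ => Nat.le_add_right _ _) (w1 θ') h1
  · obtain ⟨-, -, -, -, -, -, -, -, j9⟩ := i5 (Λ D' p.1) (H.add D' hD' p.1)
    have h0 : SlOn (fun p => r p + r' p) ⊤ (adn x y k) := by
      refine s4 _ _ _ _ ?_ (s3 r r' ⊤ x y hr hr')
      intro j
      rw [top_inf_eq]
      exact sup_le_sup_left (iSup_le fun _ => le_rfl) _
    have h1 := j9 (eA f G e x y z n k p) (adn x y k)
      (zz D' p.1 (eA f G e x y z n k p) (adn x y k) z) _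
      (s2 _ _ ⊤ _ _ (fun _ => le_rfl) le_top h0)
    exact t2 _ _ _ _ _ (fun _ => le_rfl) (w2 p) h1

/-! ## States and steps -/

/-- States. -/
structure Sta (N : Set El.{u}) (A C Θ : Type u) [CompleteBooleanAlgebra A]
    [CompleteBooleanAlgebra C] : Type u where
  n : ℕ
  θ : Θ
  e : RA C
  x : ℕ → RA C
  z : ℕ → RA A
  hθ : In N θ
  he : In N e
  hx : In N x
  hs : Sl x
  hz : In N z

theorem sub_inj {N : Set El.{u}} {T : Type u} {t t' : T} {h : In N t} {h' : In N t'}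
    (e : (⟨⟨T, t⟩, h⟩ : N) = ⟨⟨T, t'⟩, h'⟩) : t = t' := by
  have h2 := congrArg Subtype.val e
  simp only [Sigma.mk.injEq, heq_eq_eq, true_and] at h2
  exact h2

theorem sta_countable {N : Set El.{u}} (hN : N.Countable) : Countable (Sta N A C Θ) := by
  have hN' := hN.to_subtype
  refine Function.Injective.countable (f := fun s : Sta N A C Θ =>
    (s.n, (⟨_, s.hθ⟩ : N), (⟨_, s.he⟩ : N), (⟨_, s.hx⟩ : N), (⟨_, s.hz⟩ : N))) ?_
  rintro ⟨n, θ, e, x, z, h1, h2, h3, h4, h5⟩ ⟨n', θ', e', x', z', h1', h2', h3', h4', h5'⟩ h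
  simp only [Prod.mk.injEq] at h
  obtain ⟨rfl, k2, k3, k4, k5⟩ := h
  obtain rfl := sub_inj k2
  obtain rfl := sub_inj k3
  obtain rfl := sub_inj k4
  obtain rfl := sub_inj k5
  rfl

variable (f Λ) in
/-- The value of a state. -/
noncomputable def gds {N : Set El.{u}} (Ds : ℕ → Set C) (X Y : ℕ → A) (s : Sta N A C Θ) : A :=
  gcX N X Y ⊓ ev X (itp (rmap f) (Λ (Ds s.n) s.θ) s.e s.x s.z) ⊓ disX 0 s.z Y X

variable (f G) in
/-- Steps of type A. -/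
structure StepA {N : Set El.{u}} (Ds : ℕ → Set C) (Es : ℕ → Set (Pt C)) (xs : ℕ → ℕ → RA C)
    (s s' : Sta N A C Θ) : Prop where
  n : s'.n = s.n + 1
  le : s'.e ≤ s.e
  ad : ∃ k, s'.x = adn s.x (xs s.n) k
  dc : ∀ i ≤ s.n, s'.e ≤ s'.x i ∨ s'.e ⊓ s'.x i = ⊥
  tr : ∃ (a : A) (τ : TX 𝒯 A) (d : C), In N a ∧ In N τ ∧ d ∈ Ds s.n ∧ In N d ∧ f a ⊓ G τ ≤ d ∧
    s'.e ≤ kap (f a ⊓ G τ)
  cl : ∃ ε : List Bool → C, In N ε ∧ Avd ε (Es s.n ∪ (rep s.e)ᶜ) ∧ s'.e ≤ cl ε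

variable (lt) in
/-- Steps of type B. -/
structure StepB {N : Set El.{u}} (s s' : Sta N A C Θ) : Prop where
  n : s'.n = s.n
  lt : lt s'.θ s.θ
  e : s'.e = s.e
  x : s'.x = s.x

variable (f G nd lt ok) in
/-- Steps. -/
def Stp {N : Set El.{u}} (Ds : ℕ → Set C) (Es : ℕ → Set (Pt C)) (xs : ℕ → ℕ → RA C) (m : ℕ)
    (s s' : Sta N A C Θ) : Prop :=
  (∃ l, m ≤ l ∧ ok (nd s.θ ++ [l]) (nd s'.θ)) ∧ (StepA f G Ds Es xs s s' ∨ StepB lt s s')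

theorem gcX_rn (N : Set El.{u}) (X Y : ℕ → A) : gcX N X Y ≤ rn N X := inf_le_left.trans inf_le_left

/-- The step. -/
theorem step_le (hra : RapiStatement.{u}) (hre : RepStatement.{u}) (hS : SlaStatement.{u})
    (hI : ItpStatement.{u}) (hF : IsCE (rmap f)) (H : SysA 𝒯 ok f G Θ nd lt Λ)
    {zz : Set C → Θ → RA C → (ℕ → RA C) → (ℕ → RA A) → ℕ → RA A} (hzz : IsZZ f Λ zz)
    {N : Set El.{u}} (hN : NP ok f G nd lt Λ zz N) (X Y : ℕ → A) (Ds : ℕ → Set C)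
    (hD1 : ∀ n, In N (Ds n)) (hD2 : ∀ n, sSup (Ds n) = ⊤) (Es : ℕ → Set (Pt C))
    (hE1 : ∀ n, In N (Es n)) (hE2 : ∀ n, MeasurableSet (Es n)) (hE3 : ∀ n, nl (Es n))
    (xs : ℕ → ℕ → RA C) (hx1 : ∀ n, In N (xs n)) (hx2 : ∀ n, Sl (xs n)) (m : ℕ)
    (s : Sta N A C Θ) : gds f Λ Ds X Y s ≤
      ⨆ s', ⨆ _ : Stp ok f G nd lt Ds Es xs m s s', gds f Λ Ds X Y s' := by
  obtain ⟨hEm, hEb⟩ := bot_inf_mkR hra hre s.e (Es s.n) (hE2 _) (hE3 _)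
  obtain ⟨r, hr⟩ := s.hs
  obtain ⟨r', hr'⟩ := hx2 s.n
  obtain ⟨_, _, s3, s4, _, _⟩ := hS (RA C)
  have hsl : ∀ k, Sl (adn s.x (xs s.n) k) := by
    intro k
    refine ⟨_, s4 _ _ _ _ ?_ (s3 r r' ⊤ s.x (xs s.n) hr hr')⟩
    intro j
    rw [top_inf_eq]
    exact sup_le_sup_left (iSup_le fun _ => le_rfl) _
  obtain ⟨q, hq⟩ : ∃ q : Tup A C Θ, q = (s.θ, s.e, s.x, xs s.n, s.z, Ds s.n, Ds (s.n + 1),
    Es s.n ∪ (rep s.e)ᶜ) := ⟨_, rfl⟩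
  have hqN : In N q := by
    rw [hq]
    exact hN.pair _ _ s.hθ _ _ (hN.pair _ _ s.he _ _ (hN.pair _ _ s.hx _ _ (hN.pair _ _ (hx1 _) _ _
      (hN.pair _ _ s.hz _ _ (hN.pair _ _ (hD1 _) _ _ (hN.pair _ _ (hD1 _) _ _
        (hN.EN _ _ (hE1 _) s.he)))))))
  have hw := hN.w1 m s.n q hqN
  have hb := hN.b1 s.n q hqN
  have b1 := hN.seq1 (W1 ok f G nd lt Λ m s.n q) (B1 f G zz s.n q) s.z _ hw hb s.hz
    (fun k t => by
      rw [hq]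
      exact W1_agr hzz m s.n s.θ s.e s.x (xs s.n) s.z _ _ (hD2 _) (hD2 _) _ k t)
    (fun k t => by
      rw [hq]
      exact W1_sl hS hI hF H hzz m s.n s.θ s.e s.x (xs s.n) s.z _ _ (hD2 _) (hD2 _) _ r r' hr hr'
        k t) X Y
  apply le_of_ae
  filter_upwards [b1, hN.evA X] with g b1 b2 hg
  unfold gds at hg
  rw [g.mem_inf, g.mem_inf] at hg
  obtain ⟨⟨g1, g2⟩, g3⟩ := hg
  have EG := b2 (g.mono (gcX_rn N X Y) g1)
  have h1 : ∀ k, ev X (⨆ t, W1 (𝒯 := 𝒯) ok f G nd lt Λ m s.n q k t) ∈ g := by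
    intro k
    refine EG.mono _ _ (hN.itpN (Ds s.n, s.θ, s.e, s.x, s.z) ?_) (hN.w1t _ hw k).1 ?_ g2
    · exact hN.pair _ _ (hD1 _) _ _ (hN.pair _ _ s.hθ _ _ (hN.pair _ _ s.he _ _
        (hN.pair _ _ s.hx _ _ s.hz)))
    · rw [hq]
      exact (iInf_le _ k).trans (sup_W1 hI hF H m s.n s.θ s.e s.x (xs s.n) s.z _ _ (hD2 _)
        (hD2 _) _ hEm hEb k)
  obtain ⟨k, -, t, ht, h2, h3⟩ := b1 g1 g3 h1 0
  obtain ⟨w1, w2⟩ := W1_le hI hF H hzz m s.n s.θ s.e s.x (xs s.n) s.z (Ds s.n) (Ds (s.n + 1))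
    (hD2 _) (hD2 _) (Es s.n ∪ (rep s.e)ᶜ) k
  have hbN := hN.b1t _ hb k t ht
  have hwN := (hN.w1t _ hw k).2 t ht
  rcases t with θ' | p
  · have hθ' := hN.pa0 θ' ht
    by_cases hP : lt θ' s.θ ∧ ∃ l, m ≤ l ∧ ok (nd s.θ ++ [l]) (nd θ')
    · have hbN' : In N (zz (Ds s.n) θ' s.e s.x s.z) := by
        rw [hq] at hbN
        exact hbN
      refine g.mono (le_iSup₂_of_le (f := fun (s' : Sta N A C Θ)
        (_ : Stp ok f G nd lt Ds Es xs m s s') => gds f Λ Ds X Y s')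
        ⟨s.n, θ', s.e, s.x, zz (Ds s.n) θ' s.e s.x s.z, hθ', s.he, s.hx, s.hs, hbN'⟩
        ⟨hP.2, Or.inr ⟨rfl, hP.1, rfl, rfl⟩⟩ le_rfl) ?_
      unfold gds
      rw [g.mem_inf, g.mem_inf]
      refine ⟨⟨g1, ?_⟩, ?_⟩
      · refine EG.mono _ _ hwN (hN.itpN (Ds s.n, θ', s.e, s.x, zz (Ds s.n) θ' s.e s.x s.z) ?_) ?_ h2
        · exact hN.pair _ _ (hD1 _) _ _ (hN.pair _ _ hθ' _ _ (hN.pair _ _ s.he _ _
            (hN.pair _ _ s.hx _ _ hbN')))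
        · rw [hq]
          exact w1 θ'
      · rw [hq] at h3
        exact h3
    · exfalso
      have h4 : W1 (𝒯 := 𝒯) ok f G nd lt Λ m s.n q k (Sum.inl θ') = ⊥ := by
        rw [hq]
        exact iSup_neg hP
      rw [h4] at h2
      exact EG.bt h2
  · obtain ⟨hpN, hp1, hp2, hp3, hp4⟩ := hN.pa1 p ht
    by_cases hP : (∃ l, m ≤ l ∧ ok (nd s.θ ++ [l]) (nd p.1)) ∧
      (∃ d ∈ Ds s.n, f p.2.1 ⊓ G p.2.2.1 ≤ d) ∧ Avd p.2.2.2.1 (Es s.n ∪ (rep s.e)ᶜ)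
    · have heN : In N (eA f G s.e s.x (xs s.n) s.z s.n k p) := by
        have h4 := hN.eAN s.n k q p hqN hpN
        rw [hq] at h4
        exact h4
      have hxN : In N (adn s.x (xs s.n) k) := hN.adN k _ _ s.hx (hx1 _)
      have hbN' : In N (zz (Ds (s.n + 1)) p.1 (eA f G s.e s.x (xs s.n) s.z s.n k p)
          (adn s.x (xs s.n) k) s.z) := by
        rw [hq] at hbN
        exact hbN
      obtain ⟨d, hd1, hd2, hd3⟩ := hN.dN (Ds s.n, p.2.1, p.2.2.1)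
        (hN.pair _ _ (hD1 _) _ _ (hN.pair _ _ hp2 _ _ hp3)) hP.2.1
      refine g.mono (le_iSup₂_of_le (f := fun (s' : Sta N A C Θ)
        (_ : Stp ok f G nd lt Ds Es xs m s s') => gds f Λ Ds X Y s')
        ⟨s.n + 1, p.1, eA f G s.e s.x (xs s.n) s.z s.n k p, adn s.x (xs s.n) k,
          zz (Ds (s.n + 1)) p.1 (eA f G s.e s.x (xs s.n) s.z s.n k p) (adn s.x (xs s.n) k) s.z,
          hp1, heN, hxN, hsl k, hbN'⟩
        ⟨hP.1, Or.inl ⟨rfl, ?_, ⟨k, rfl⟩, ?_, ⟨p.2.1, p.2.2.1, d, hp2, hp3, hd1, hd2, hd3, ?_⟩,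
          ⟨p.2.2.2.1, hp4, hP.2.2, ?_⟩⟩⟩ le_rfl) ?_
      · exact (eA_le _ _ _ _ _ _ _).trans inf_le_left
      · intro i hi
        exact dec_cases (adn s.x (xs s.n) k) s.n p.2.2.2.2 _ i hi inf_le_right
      · exact inf_le_left.trans (inf_le_left.trans inf_le_right)
      · exact inf_le_left.trans inf_le_right
      · unfold gds
        rw [g.mem_inf, g.mem_inf]
        refine ⟨⟨g1, ?_⟩, ?_⟩
        · refine EG.mono _ _ hwN (hN.itpN (Ds (s.n + 1), p.1, eA f G s.e s.x (xs s.n) s.z s.n k p,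
            adn s.x (xs s.n) k, zz (Ds (s.n + 1)) p.1 (eA f G s.e s.x (xs s.n) s.z s.n k p)
              (adn s.x (xs s.n) k) s.z) ?_) ?_ h2
          · exact hN.pair _ _ (hD1 _) _ _ (hN.pair _ _ hp1 _ _ (hN.pair _ _ heN _ _
              (hN.pair _ _ hxN _ _ hbN')))
          · rw [hq]
            exact w2 p
        · rw [hq] at h3
          exact h3
    · exfalso
      have h4 : W1 (𝒯 := 𝒯) ok f G nd lt Λ m s.n q k (Sum.inr p) = ⊥ := by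
        rw [hq]
        exact iSup_neg hP
      rw [h4] at h2
      exact EG.bt h2

/-- The start. -/
theorem start_le (hS : SlaStatement.{u})
    (hI : ItpStatement.{u}) (hF : IsCE (rmap f)) (H : SysA 𝒯 ok f G Θ nd lt Λ)
    {zz : Set C → Θ → RA C → (ℕ → RA C) → (ℕ → RA A) → ℕ → RA A} (hzz : IsZZ f Λ zz)
    {N : Set El.{u}} (hN : NP ok f G nd lt Λ zz N) (X Y : ℕ → A) (Ds : ℕ → Set C)
    (hD1 : ∀ n, In N (Ds n)) (hD2 : ∀ n, sSup (Ds n) = ⊤)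
    (e : RA C) (x : ℕ → RA C) (z : ℕ → RA A) (he : In N e) (hx : In N x) (hs : Sl x)
    (hz : In N z) :
    gcX N X Y ⊓ ev X (itp (rmap f) (prj (rmap f)) e x z) ⊓ disX 0 z Y X ≤
      ⨆ s : Sta N A C Θ, ⨆ _ : s.n = 0 ∧ s.e = e ∧ s.x = x, gds f Λ Ds X Y s := by
  obtain ⟨r, hr⟩ := hs
  obtain ⟨-, -, -, -, i5⟩ := hI (RA A) (RA C) (rmap f) hF
  obtain ⟨_, s2, _, _, _, _⟩ := hS (RA C)
  obtain ⟨_, t2, _, _, _, _⟩ := hS (RA A)
  have hqN : In N (Ds 0, e, x, z) := hN.pair _ _ (hD1 0) _ _ (hN.pair _ _ he _ _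
    (hN.pair _ _ hx _ _ hz))
  have hw := hN.w0 _ hqN
  have hb := hN.b0 _ hqN
  have hle : ∀ k θ, W0 f Λ (Ds 0, e, x, z) k θ ≤
      itp (rmap f) (Λ (Ds 0) θ) e x (zz (Ds 0) θ e x z) := by
    intro k θ
    obtain ⟨j1, j2, -⟩ := i5 (Λ (Ds 0) θ) (H.add _ (hD2 0) θ)
    exact (j2 _ _ inf_le_left).trans (hzz (Ds 0) θ e x z (hD2 0)).1
  have b1 := hN.seq0 (W0 f Λ (Ds 0, e, x, z)) (fun _ θ => zz (Ds 0) θ e x z) z r hw hb hz
    (fun k θ => (hzz (Ds 0) θ e x z (hD2 0)).2 k)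
    (fun k θ => by
      obtain ⟨-, -, -, -, -, -, -, -, j9⟩ := i5 (Λ (Ds 0) θ) (H.add _ (hD2 0) θ)
      exact t2 _ _ _ _ _ (fun _ => le_rfl) (hle k θ)
        (j9 e x (zz (Ds 0) θ e x z) r (s2 r r ⊤ e x (fun _ => le_rfl) le_top hr))) X Y
  apply le_of_ae
  filter_upwards [b1, hN.evA X] with g b1 b2 hg
  rw [g.mem_inf, g.mem_inf] at hg
  obtain ⟨⟨g1, g2⟩, g3⟩ := hg
  have EG := b2 (g.mono (gcX_rn N X Y) g1)
  obtain ⟨p1, p2⟩ := hN.prjN (e, x, z) (hN.pair _ _ he _ _ (hN.pair _ _ hx _ _ hz))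
  have h1 : ∀ k, ev X (⨆ t, W0 f Λ (Ds 0, e, x, z) k t) ∈ g := by
    intro k
    refine EG.mono _ _ p1 (hN.w0t _ hw k).1 ?_ g2
    exact (iInf_le _ k).trans (H.ini _ (hD2 0) _)
  obtain ⟨k, -, θ, hθ, h2, h3⟩ := b1 g1 g3 h1 0
  have hbN := hN.b0t _ hb k θ hθ
  refine g.mono (le_iSup₂_of_le (f := fun (s : Sta N A C Θ)
    (_ : s.n = 0 ∧ s.e = e ∧ s.x = x) => gds f Λ Ds X Y s)
    ⟨0, θ, e, x, zz (Ds 0) θ e x z, hθ, he, hx, ⟨r, hr⟩, hbN⟩ ⟨rfl, rfl, rfl⟩ le_rfl) ?_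
  unfold gds
  rw [g.mem_inf, g.mem_inf]
  refine ⟨⟨g1, ?_⟩, h3⟩
  refine EG.mono _ _ ((hN.w0t _ hw k).2 θ hθ) (hN.itpN (Ds 0, θ, e, x, zz (Ds 0) θ e x z) ?_)
    (hle k θ) h2
  exact hN.pair _ _ (hD1 _) _ _ (hN.pair _ _ hθ _ _ (hN.pair _ _ he _ _ (hN.pair _ _ hx _ _ hbN)))

/-! ## Sequences of states -/

section seqs

variable {N : Set El.{u}} {Ds : ℕ → Set C} {Es : ℕ → Set (Pt C)} {xs : ℕ → ℕ → RA C}

theorem stp_mono {m : ℕ} {s s' : Sta N A C Θ} (h : Stp ok f G nd lt Ds Es xs m s s') :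
    s'.e ≤ s.e ∧ (∀ i, s.x i ≤ s'.x i) ∧ s.n ≤ s'.n := by
  rcases h.2 with h | h
  · obtain ⟨k, hk⟩ := h.ad
    refine ⟨h.le, fun i => ?_, ?_⟩
    · rw [hk]
      exact le_sup_left
    · rw [h.n]
      exact Nat.le_succ _
  · refine ⟨h.e.le, fun i => ?_, h.n.ge⟩
    rw [h.x]

variable {σ : ℕ → Sta N A C Θ} (hσ : ∀ j, Stp ok f G nd lt Ds Es xs 0 (σ j) (σ (j + 1)))

include hσ

theorem seq_mono {j j' : ℕ} (h : j ≤ j') : (σ j').e ≤ (σ j).e ∧ (∀ i, (σ j).x i ≤ (σ j').x i) ∧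
    (σ j).n ≤ (σ j').n := by
  induction j', h using Nat.le_induction with
  | base => exact ⟨le_rfl, fun _ => le_rfl, le_rfl⟩
  | succ j' _ ih =>
    obtain ⟨h1, h2, h3⟩ := stp_mono (hσ j')
    exact ⟨h1.trans ih.1, fun i => (ih.2.1 i).trans (h2 i), ih.2.2.trans h3⟩

theorem seq_A (hwf : WellFounded lt) (j : ℕ) : ∃ j', j ≤ j' ∧ (σ j').n = (σ j).n ∧
    (σ j').e = (σ j).e ∧ (σ j').x = (σ j).x ∧ StepA f G Ds Es xs (σ j') (σ (j' + 1)) := by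
  have key : ∀ θ : Θ, ∀ j, (σ j).θ = θ → ∃ j', j ≤ j' ∧ (σ j').n = (σ j).n ∧
      (σ j').e = (σ j).e ∧ (σ j').x = (σ j).x ∧ StepA f G Ds Es xs (σ j') (σ (j' + 1)) := by
    intro θ
    induction θ using hwf.induction with
    | _ θ ih =>
      intro j hj
      rcases (hσ j).2 with h | h
      · exact ⟨j, le_rfl, rfl, rfl, rfl, h⟩
      · have h1 := h.lt
        rw [hj] at h1
        obtain ⟨j', h2, h3, h4, h5, h6⟩ := ih _ h1 (j + 1) rfl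
        exact ⟨j', (Nat.le_succ j).trans h2, h3.trans h.n, h4.trans h.e, h5.trans h.x, h6⟩
  exact key _ j rfl

theorem seq_B (hwf : WellFounded lt) (h0 : (σ 0).n = 0) (n : ℕ) : ∃ j, (σ j).n = n ∧
    StepA f G Ds Es xs (σ j) (σ (j + 1)) := by
  induction n with
  | zero =>
    obtain ⟨j, -, h1, -, -, h2⟩ := seq_A hσ hwf 0
    exact ⟨j, h1.trans h0, h2⟩
  | succ n ih =>
    obtain ⟨j, h1, h2⟩ := ih
    obtain ⟨j', -, h3, -, -, h4⟩ := seq_A hσ hwf (j + 1)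
    refine ⟨j', ?_, h4⟩
    rw [h3, h2.n, h1]

theorem seq_C (hwf : WellFounded lt) (j i : ℕ) : ∃ j', j ≤ j' ∧ i ≤ (σ j').n ∧
    StepA f G Ds Es xs (σ j') (σ (j' + 1)) := by
  induction i with
  | zero =>
    obtain ⟨j', h1, -, -, -, h2⟩ := seq_A hσ hwf j
    exact ⟨j', h1, Nat.zero_le _, h2⟩
  | succ i ih =>
    obtain ⟨j1, h1, h2, h3⟩ := ih
    obtain ⟨j2, h4, h5, -, -, h6⟩ := seq_A hσ hwf (j1 + 1)
    refine ⟨j2, h1.trans ((Nat.le_succ j1).trans h4), ?_, h6⟩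
    rw [h5, h3.n]
    exact Nat.succ_le_succ h2

end seqs

/-! ## The end -/

/-- Below a condition which decides `x i` positively, interpretations contain `i`. -/
theorem itp_pos {S R : Type u} [CompleteBooleanAlgebra S] [CompleteBooleanAlgebra R] {F : S → R}
    (π : R → S) (hπ : AddM F π) (hm : ∀ c c', c ≤ c' → π c ≤ π c')
    (e : R) (x : ℕ → R) (z : ℕ → S) (i : ℕ) (h : e ≤ x i) :
    itp F π e x z ≤ z i := by
  refine (iInf_le _ (i + 1)).trans ?_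
  have h3 : e ⊓ agr F z x (i + 1) ≤ e ⊓ F (z i) := by
    refine le_inf inf_le_left ?_
    have h4 : agr F z x (i + 1) ≤
        (F (z i) ⊓ x i) ⊔ ((F (z i))ᶜ ⊓ (x i)ᶜ) :=
      (iInf_le _ i).trans (iInf_le _ (Nat.lt_succ_self i))
    refine (inf_le_inf h h4).trans ?_
    rw [inf_sup_left]
    refine sup_le (inf_le_right.trans inf_le_left) ?_
    have h5 : x i ⊓ ((F (z i))ᶜ ⊓ (x i)ᶜ) = ⊥ := by
      rw [inf_comm (F (z i))ᶜ, ← inf_assoc, inf_compl_eq_bot, bot_inf_eq]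
    rw [h5]
    exact bot_le
  refine (hm _ _ h3).trans ?_
  rw [hπ.lin]
  exact inf_le_right

theorem countable_in {N : Set El.{u}} (hN : N.Countable) (T : Type u) :
    Countable {t : T // In N t} := by
  have h1 : Function.Injective (fun t : {t : T // In N t} => (⟨⟨T, t.1⟩, t.2⟩ : N)) := by
    intro a b h
    exact Subtype.ext (sub_inj h)
  have := hN.to_subtype
  exact h1.countable

theorem fin_le (hkap : KapStatement.{u}) (hra : RapiStatement.{u}) (hre : RepStatement.{u}) (hS : SlaStatement.{u})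
    (hI : ItpStatement.{u}) (hdix : DixStatement.{u}) (hrf : RfmStatement.{u}) (hf : IsCE f)
    (hG : ∀ τ, prj f (G τ) = ⊤)
    (hT : TrsA 𝒯 ok f G Nd) (H : SysA 𝒯 ok f G Θ nd lt Λ)
    {zz : Set C → Θ → RA C → (ℕ → RA C) → (ℕ → RA A) → ℕ → RA A} (hzz : IsZZ f Λ zz)
    {N : Set El.{u}} (hN : NP ok f G nd lt Λ zz N) (X Y : ℕ → A) (Ds : ℕ → Set C)
    (hD1 : ∀ n, In N (Ds n)) (hD2 : ∀ n, sSup (Ds n) = ⊤)
    (hD3 : ∀ D, In N D → sSup D = ⊤ → ∃ n, D = Ds n) (Es : ℕ → Set (Pt C))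
    (hE1 : ∀ n, In N (Es n)) (hE2 : ∀ n, MeasurableSet (Es n)) (hE3 : ∀ n, nl (Es n))
    (hE4 : ∀ E, In N E → MeasurableSet E → nl E → ∃ n, E = Es n)
    (xs : ℕ → ℕ → RA C) (hx1 : ∀ n, In N (xs n)) (hx2 : ∀ n, Sl (xs n))
    (hx3 : ∀ x, In N x → Sl x → ∃ n, x = xs n) (s0 : Sta N A C Θ) (h0 : s0.n = 0) :
    gds f Λ Ds X Y s0 ≤ prj f (gcX N (fun n => f (X n)) (fun n => f (Y n)) ⊓
      ev (fun n => f (X n)) s0.e ⊓ disX 0 s0.x (fun n => f (Y n)) fun n => f (X n)) := by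
  have hF : IsCE (rmap f) := (hrf A C f hf).1
  obtain ⟨-, -, -, -, i5⟩ := hI (RA A) (RA C) (rmap f) hF
  have hcs := sta_countable (A := A) (C := C) (Θ := Θ) hN.nc
  have hcz := countable_in hN.nc (ℕ → RA A)
  have hcx := countable_in hN.nc (ℕ → RA C)
  have hct := countable_in hN.nc (TX 𝒯 A)
  have hitp : ∀ s : Sta N A C Θ, In N (itp (rmap f) (Λ (Ds s.n) s.θ) s.e s.x s.z) := by
    intro s
    exact hN.itpN (Ds s.n, s.θ, s.e, s.x, s.z) (hN.pair _ _ (hD1 _) _ _ (hN.pair _ _ s.hθ _ _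
      (hN.pair _ _ s.he _ _ (hN.pair _ _ s.hx _ _ s.hz))))
  have hlam : ∀ s : Sta N A C Θ, In N (Λ (Ds s.n) s.θ s.e) := by
    intro s
    exact hN.lamN (Ds s.n, s.θ, s.e) (hN.pair _ _ (hD1 _) _ _ (hN.pair _ _ s.hθ _ _ s.he))
  have hle : ∀ s : Sta N A C Θ, itp (rmap f) (Λ (Ds s.n) s.θ) s.e s.x s.z ≤
      Λ (Ds s.n) s.θ s.e := by
    intro s
    obtain ⟨-, -, j3, -⟩ := i5 (Λ (Ds s.n) s.θ) (H.add _ (hD2 _) _)
    exact j3 _ _ _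
  have hP : PHyp ok (fun s : Sta N A C Θ => nd s.θ) (gds f Λ Ds X Y)
      (fun m s s' => ⨆ _ : Stp ok f G nd lt Ds Es xs m s s', gds f Λ Ds X Y s') := by
    refine ⟨?_, ?_, ?_, ?_, ?_⟩
    · intro s hs
      by_contra hc
      apply hs
      rw [← le_bot_iff]
      apply le_of_ae
      filter_upwards [hN.evA X] with g b2 hg
      exfalso
      unfold gds at hg
      rw [g.mem_inf, g.mem_inf] at hg
      obtain ⟨⟨g1, g2⟩, -⟩ := hg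
      have EG := b2 (g.mono (gcX_rn N X Y) g1)
      have h1 : itp (rmap f) (Λ (Ds s.n) s.θ) s.e s.x s.z = ⊥ := by
        rw [← le_bot_iff]
        exact (hle s).trans (H.inc _ (hD2 _) _ _ hc).le
      rw [h1] at g2
      exact EG.bt g2
    · exact fun m s s' => iSup_le fun _ => le_rfl
    · intro m s s'
      refine iSup_le fun h => ?_
      obtain ⟨⟨l, hl, hl'⟩, h2⟩ := h
      exact le_iSup_of_le ⟨⟨l, (Nat.le_succ m).trans hl, hl'⟩, h2⟩ le_rfl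
    · intro m s s' h
      by_contra hc
      apply h
      exact iSup_neg fun h' => hc h'.1
    · exact fun m s => step_le hra hre hS hI hF H hzz hN X Y Ds hD1 hD2 Es hE1 hE2 hE3 xs hx1 hx2
        m s
  obtain ⟨P, τ, t1, t2, t3⟩ := hT (Sta N A C Θ) _ _ _ hP s0 (gds f Λ Ds X Y s0) le_rfl
  have hp : prj f (f (gds f Λ Ds X Y s0) ⊓ G τ) = gds f Λ Ds X Y s0 := by
    rw [prj_inf' hf, hG, inf_top_eq]
  rw [← hp]
  refine prj_mono hf (le_of_ae ?_)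
  have d1 : ∀ᶠ g in ae A, ∀ z, In N z → (disX 0 z Y X ∈ g ↔
      ∀ p, 0 ≤ p → ∀ i, ev X (z (Nat.pair p i)) ∈ g → Y (Nat.pair p i) ∉ g) :=
    ae_all_in hcz fun z _ => (hdix A).1 0 z Y X
  have d2 : ∀ᶠ h in ae C, ∀ x, In N x → ∀ n, (disX n x (fun n => f (Y n)) (fun n => f (X n)) ∈ h ↔
      ∀ p, n ≤ p → ∀ i, ev (fun n => f (X n)) (x (Nat.pair p i)) ∈ h → f (Y (Nat.pair p i)) ∉ h) :=
    ae_all_in hcx fun x _ => ae_all fun n => (hdix C).1 n x (fun n => f (Y n)) (fun n => f (X n))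
  have d3 := (hdix C).2.1 N hN.nc (fun n => f (X n)) (fun n => f (Y n))
  have d4 := (hdix A).2.1 N hN.nc X Y
  have d5 : ∀ᶠ h in ae C, ∀ σ : TX 𝒯 A, In N σ → (f (gds f Λ Ds X Y s0) ⊓ G τ ∈ h →
      ∀ g : Ult A, (∀ b, b ∈ g ↔ f b ∈ h) → ∀ s ρ, P (s :: ρ) ∈ g → Nd (nd s.θ) ∈ h →
        (∀ s' ρ', P (s' :: ρ') ∈ g → s :: ρ <:+ s' :: ρ' → σ.1 (nd s'.θ) ∈ g) → G σ ∈ h) :=
    ae_all_in hct fun σ _ => t3 σ
  filter_upwards [t2, ae_pull hf t1, d5, hN.ver fun n => f (X n), hN.evC fun n => f (X n),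
    ae_pull hf (hN.evA X), ae_pull hf d1, d2, d3, ae_pull hf d4, ae_pull hf (ae_cut Y),
    ae_cut fun n => f (Y n)] with h t2 t1 t3 hver hevC hevA d1 d2 d3 d4 c1 c2 hh
  obtain ⟨g, hg⟩ : ∃ g : Ult A, g = h.pull hf := ⟨_, rfl⟩
  rw [← hg] at t1 hevA d1 d4 c1
  have hgf : ∀ b, b ∈ g ↔ f b ∈ h := by
    intro b
    rw [hg]
    exact Iff.rfl
  have hga : gds f Λ Ds X Y s0 ∈ g := (hgf _).2 (h.mem_inf.1 hh).1
  obtain ⟨π, π0, πs, πP, πN⟩ := t2 hh g hgf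
  have PT := t1 hga
  choose σ' hσ' using πs
  obtain ⟨σ, hσ0, hσ1⟩ : ∃ σ : ℕ → Sta N A C Θ, σ 0 = s0 ∧ ∀ j, σ (j + 1) = σ' j :=
    ⟨fun j => Nat.casesOn j s0 σ', rfl, fun _ => rfl⟩
  have hlen : ∀ j, (π j).length = j + 1 := by
    intro j
    induction j with
    | zero => rw [π0]; rfl
    | succ j ih => rw [hσ', List.length_cons, ih]
  have hπ : ∀ j, π (j + 1) = σ (j + 1) :: π j := by
    intro j
    rw [hσ', hσ1]
  have hπ' : ∀ j, ∃ ρ, π j = σ j :: ρ := by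
    intro j
    rcases j with _ | j
    · exact ⟨[], by rw [π0, hσ0]⟩
    · exact ⟨_, hπ j⟩
  have hst : ∀ j, Stp ok f G nd lt Ds Es xs 0 (σ j) (σ (j + 1)) ∧
      gds f Λ Ds X Y (σ (j + 1)) ∈ g := by
    intro j
    obtain ⟨ρ, hρ⟩ := hπ' j
    have h1 := πP (j + 1)
    rw [hπ, hρ] at h1
    obtain ⟨-, h2⟩ := PT.step _ _ _ h1
    exact mem_iSup_prop.1 h2
  have hgd : ∀ j, gds f Λ Ds X Y (σ j) ∈ g := by
    intro j
    rcases j with _ | j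
    · rw [hσ0]
      exact hga
    · exact (hst j).2
  have hσ := fun j => (hst j).1
  have hgd' : ∀ s : Sta N A C Θ, gds f Λ Ds X Y s ∈ g → gcX N X Y ∈ g ∧
      ev X (itp (rmap f) (Λ (Ds s.n) s.θ) s.e s.x s.z) ∈ g ∧ disX 0 s.z Y X ∈ g := by
    intro s hs
    unfold gds at hs
    rw [g.mem_inf, g.mem_inf] at hs
    exact ⟨hs.1.1, hs.1.2, hs.2⟩
  obtain ⟨g1, -, -⟩ := hgd' _ hga
  have EG := hevA (g.mono (gcX_rn N X Y) g1)
  have hval : ∀ s : Sta N A C Θ, gds f Λ Ds X Y s ∈ g → ev X (Λ (Ds s.n) s.θ s.e) ∈ g :=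
    fun s hs => EG.mono _ _ (hitp s) (hlam s) (hle s) (hgd' s hs).2.1
  have hnod : ∀ s : Sta N A C Θ, gds f Λ Ds X Y s ∈ g → ∀ (a : A) (τ' : TX 𝒯 A), In N a →
      In N τ' → s.e ≤ kap (f a ⊓ G τ') → a ∈ g ∧ τ'.1 (nd s.θ) ∈ g := by
    intro s hs a τ' ha hτ' he
    have h1 := hN.aN (a, τ', s.θ) (hN.pair _ _ ha _ _ (hN.pair _ _ hτ' _ _ s.hθ))
    have h2 := EG.mono _ _ (hlam s) (hN.kpN _ h1) (H.nod _ (hD2 _) _ _ a τ' he) (hval s hs)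
    have h3 := (EG.kp _ h1).1 h2
    exact g.mem_inf.1 h3
  -- the verification
  have hvx : vx (fun n => f (X n)) h = vx X g := by
    rw [hg]
    rfl
  have hV := hver (fun j => (σ j).e) (fun j => (σ j).he)
    (fun j => (seq_mono hσ (Nat.le_succ j)).1)
    (by
      intro E h1 h2 h3
      obtain ⟨n, hn⟩ := hE4 E h1 h2 h3
      obtain ⟨j, hj, hA⟩ := seq_B hσ H.wf (by rw [hσ0]; exact h0) n
      obtain ⟨ε, k1, k2, k3⟩ := hA.cl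
      refine ⟨j + 1, ε, k1, ?_, k3⟩
      filter_upwards [k2] with g' hg' x hx hxE
      refine hg' x hx (Or.inl ?_)
      rw [hj, ← hn]
      exact hxE)
    (by
      intro j
      obtain ⟨j', hj, -, he, -, hA⟩ := seq_A hσ H.wf j
      obtain ⟨ε, k1, k2, k3⟩ := hA.cl
      refine ⟨j' + 1, ε, k1, ?_, k3⟩
      filter_upwards [k2] with g' hg' x hx hxE
      refine hg' x hx (Or.inr ?_)
      rw [he]
      exact hxE)
    (by
      intro D h1 h2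
      obtain ⟨n, hn⟩ := hD3 D h1 h2
      obtain ⟨j, hj, hA⟩ := seq_B hσ H.wf (by rw [hσ0]; exact h0) n
      obtain ⟨a, τ', d, k1, k2, k3, k4, k5, k6⟩ := hA.tr
      rw [hj, ← hn] at k3
      obtain ⟨k7, -⟩ := hnod _ (hgd (j + 1)) a τ' k1 k2 k6
      have k8 : G τ' ∈ h := by
        have hPj : P (σ (j + 1) :: π j) ∈ g := by
          rw [← hπ]
          exact πP (j + 1)
        refine t3 τ' k2 hh g hgf (σ (j + 1)) (π j) hPj ?_ ?_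
        · rw [πN _ _ hPj, hlen, hπ]
        · intro s' ρ' q1 q2
          have key : ∀ (ρ' : List (Sta N A C Θ)) (s' : Sta N A C Θ), P (s' :: ρ') ∈ g →
              σ (j + 1) :: π j <:+ s' :: ρ' →
              s'.e ≤ (σ (j + 1)).e ∧ gds f Λ Ds X Y s' ∈ g := by
            intro ρ'
            induction ρ' with
            | nil =>
              intro s' q1 q2
              rcases List.suffix_cons_iff.1 q2 with q3 | q3
              · obtain ⟨rfl, -⟩ := List.cons.inj q3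
                exact ⟨le_rfl, hgd _⟩
              · exact absurd (List.suffix_nil.1 q3) (by simp)
            | cons s'' ρ'' ih =>
              intro s' q1 q2
              rcases List.suffix_cons_iff.1 q2 with q3 | q3
              · obtain ⟨rfl, -⟩ := List.cons.inj q3
                exact ⟨le_rfl, hgd _⟩
              · obtain ⟨q4, q5⟩ := PT.step _ _ _ q1
                obtain ⟨q6, q7⟩ := mem_iSup_prop.1 q5
                exact ⟨(stp_mono q6).1.trans (ih s'' q4 q3).1, q7⟩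
          obtain ⟨q3, q4⟩ := key ρ' s' q1 q2
          exact (hnod s' q4 a τ' k1 k2 (q3.trans k6)).2
      exact ⟨j + 1, d, k3, k4, h.mono k5 (h.mem_inf.2 ⟨(hgf _).1 k7, k8⟩),
        k6.trans ((H12.f_le (hkap C).1).2 k5)⟩)
    (by
      intro j k hbot
      rw [hvx] at hbot
      have h1 := hval _ (hgd j)
      have h2 : ev X (cy (res (vx X g) k) : RA A) ∈ g := by
        rw [EG.cyl]
        unfold res
        simp
      have h3 := (EG.inf _ _ (hlam (σ j)) (hN.cyN _)).2 ⟨h1, h2⟩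
      have h4 := (H.add (Ds (σ j).n) (hD2 _) (σ j).θ).lin (σ j).e (cy (res (vx X g) k))
      rw [(hrf A C f hf).2.2.2.2.2.1] at h4
      obtain ⟨j1, -⟩ := i5 (Λ (Ds (σ j).n) (σ j).θ) (H.add _ (hD2 _) _)
      have h5 : Λ (Ds (σ j).n) (σ j).θ ((σ j).e ⊓ cy (res (vx X g) k)) = ⊥ :=
        (congrArg (Λ (Ds (σ j).n) (σ j).θ) hbot).trans j1
      have h6 : ev X (⊥ : RA A) ∈ g :=
        (congrArg (fun r : RA A => ev X r ∈ g) (h4.symm.trans h5)).mp h3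
      exact EG.bt h6)
  obtain ⟨hrn, hev⟩ := hV
  have EC := hevC hrn
  -- the slaloms avoid `Y`
  have key2 : ∀ j i, ev (fun n => f (X n)) ((σ j).x i) ∈ h → f (Y i) ∉ h := by
    intro j i h1 h2
    obtain ⟨j', hj, hi, hA⟩ := seq_C hσ H.wf j i
    have h3 : ev (fun n => f (X n)) ((σ (j' + 1)).x i) ∈ h :=
      EC.mono _ _ (hN.xN _ (σ j).hx i) (hN.xN _ (σ (j' + 1)).hx i)
        ((seq_mono hσ (hj.trans (Nat.le_succ j'))).2.1 i) h1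
    rcases hA.dc i hi with h4 | h4
    · obtain ⟨-, j2, -⟩ := i5 (Λ (Ds (σ (j' + 1)).n) (σ (j' + 1)).θ) (H.add _ (hD2 _) _)
      have h5 := itp_pos _ (H.add (Ds (σ (j' + 1)).n) (hD2 _) (σ (j' + 1)).θ) j2 (σ (j' + 1)).e
        (σ (j' + 1)).x (σ (j' + 1)).z i h4
      obtain ⟨-, h6, h7⟩ := hgd' _ (hgd (j' + 1))
      have h8 := EG.mono _ _ (hitp _) (hN.zN _ (σ (j' + 1)).hz i) h5 h6
      rw [d1 _ (σ (j' + 1)).hz] at h7
      have h9 := h7 i.unpair.1 (Nat.zero_le _) i.unpair.2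
      rw [Nat.pair_unpair] at h9
      exact h9 h8 ((hgf _).2 h2)
    · have h5 := (EC.inf _ _ (σ (j' + 1)).he (hN.xN _ (σ (j' + 1)).hx i)).2 ⟨hev (j' + 1), h3⟩
      have h6 : ev (fun n => f (X n)) (⊥ : RA C) ∈ h :=
        (congrArg (fun r : RA C => ev (fun n => f (X n)) r ∈ h) h4).mp h5
      exact EC.bt h6
  rw [h.mem_inf, h.mem_inf]
  refine ⟨⟨?_, ?_⟩, ?_⟩
  · rw [d3]
    refine ⟨hrn, ?_, ?_⟩
    · rw [c2]
      have h1 := (d4.1 g1).2.1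
      rw [c1] at h1
      intro m
      obtain ⟨k, hk, h2⟩ := h1 m
      exact ⟨k, hk, fun p hp i hi h3 => h2 p hp i hi ((hgf _).2 h3)⟩
    · intro y hy hsy
      obtain ⟨n, hn⟩ := hx3 y hy hsy
      obtain ⟨j, hj, hA⟩ := seq_B hσ H.wf (by rw [hσ0]; exact h0) n
      obtain ⟨k, hk⟩ := hA.ad
      refine ⟨k, ?_⟩
      rw [d2 y hy]
      intro p hp i h1
      refine key2 (j + 1) _ (EC.mono _ _ (hN.xN _ hy _) (hN.xN _ (σ (j + 1)).hx _) ?_ h1)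
      rw [hk, hj, ← hn]
      refine le_sup_of_le_right (le_iSup_of_le ?_ le_rfl)
      rw [Nat.unpair_pair]
      exact hp
  · have h1 := hev 0
    rw [hσ0] at h1
    exact h1
  · rw [d2 _ s0.hx]
    intro p _ i h1
    refine key2 0 _ ?_
    rw [hσ0]
    exact h1

theorem prxA (hkap : KapStatement.{u}) (hra : RapiStatement.{u}) (hre : RepStatement.{u})
    (hS : SlaStatement.{u}) (hI : ItpStatement.{u}) (hdix : DixStatement.{u})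
    (hrf : RfmStatement.{u}) (hseq : SeqxStatement.{u}) (hev : EvxStatement.{u})
    (hver : VerStatement.{u}) (hlb : LbStatement.{u}) (hf : IsCE f)
    (hG : ∀ τ, prj f (G τ) = ⊤)
    (hT : TrsA 𝒯 ok f G Nd) (H : SysA 𝒯 ok f G Θ nd lt Λ) : PRX f := by
  have hF : IsCE (rmap f) := (hrf A C f hf).1
  obtain ⟨zz, hzz⟩ := exists_zz hlb hF H
  filter_upwards [np (ok := ok) (f := f) (G := G) (nd := nd) (lt := lt) (Λ := Λ) hseq hev hver zz]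
    with N hN X Y e x z he hx hs hz
  have hcx : Countable {x : ℕ → RA C // In N x ∧ Sl x} := by
    have := countable_in hN.nc (ℕ → RA C)
    refine Function.Injective.countable (f := fun x : {x : ℕ → RA C // In N x ∧ Sl x} =>
      (⟨x.1, x.2.1⟩ : {x : ℕ → RA C // In N x})) ?_
    intro a b h
    have h2 := congrArg Subtype.val h
    exact Subtype.ext h2
  have hcD : Countable {D : Set C // In N D ∧ sSup D = ⊤} := by
    have := countable_in hN.nc (Set C)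
    refine Function.Injective.countable (f := fun x : {D : Set C // In N D ∧ sSup D = ⊤} =>
      (⟨x.1, x.2.1⟩ : {D : Set C // In N D})) ?_
    intro a b h
    have h2 := congrArg Subtype.val h
    exact Subtype.ext h2
  have hcE : Countable {E : Set (Pt C) // In N E ∧ MeasurableSet E ∧ nl E} := by
    have := countable_in hN.nc (Set (Pt C))
    refine Function.Injective.countable (f := fun x :
      {E : Set (Pt C) // In N E ∧ MeasurableSet E ∧ nl E} =>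
      (⟨x.1, x.2.1⟩ : {E : Set (Pt C) // In N E})) ?_
    intro a b h
    have h2 := congrArg Subtype.val h
    exact Subtype.ext h2
  have : Nonempty {x : ℕ → RA C // In N x ∧ Sl x} := ⟨⟨x, hx, hs⟩⟩
  have : Nonempty {D : Set C // In N D ∧ sSup D = ⊤} := ⟨⟨Set.univ, hN.unN, sSup_univ⟩⟩
  have : Nonempty {E : Set (Pt C) // In N E ∧ MeasurableSet E ∧ nl E} :=
    ⟨⟨∅, hN.emN, MeasurableSet.empty, Filter.Eventually.of_forall fun g => by simp [sec]⟩⟩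
  obtain ⟨xs, hxs⟩ := exists_surjective_nat {x : ℕ → RA C // In N x ∧ Sl x}
  obtain ⟨Ds, hDs⟩ := exists_surjective_nat {D : Set C // In N D ∧ sSup D = ⊤}
  obtain ⟨Es, hEs⟩ := exists_surjective_nat {E : Set (Pt C) // In N E ∧ MeasurableSet E ∧ nl E}
  refine (start_le hS hI hF H hzz hN X Y (fun n => (Ds n).1) (fun n => (Ds n).2.1)
    (fun n => (Ds n).2.2) e x z he hx hs hz).trans (iSup₂_le fun s hs0 => ?_)
  obtain ⟨h0, h1, h2⟩ := hs0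
  have h3 := fin_le hkap hra hre hS hI hdix hrf hf hG hT H hzz hN X Y (fun n => (Ds n).1)
    (fun n => (Ds n).2.1) (fun n => (Ds n).2.2)
    (fun D hD hD' => by
      obtain ⟨n, hn⟩ := hDs ⟨D, hD, hD'⟩
      exact ⟨n, by rw [hn]⟩)
    (fun n => (Es n).1) (fun n => (Es n).2.1) (fun n => (Es n).2.2.1) (fun n => (Es n).2.2.2)
    (fun E h4 h5 h6 => by
      obtain ⟨n, hn⟩ := hEs ⟨E, h4, h5, h6⟩
      exact ⟨n, by rw [hn]⟩)
    (fun n => (xs n).1) (fun n => (xs n).2.1) (fun n => (xs n).2.2)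
    (fun x h4 h5 => by
      obtain ⟨n, hn⟩ := hxs ⟨x, h4, h5⟩
      exact ⟨n, by rw [hn]⟩) s h0
  rw [h1, h2] at h3
  exact h3

end

end Pool.Agent.Lib.MP_a78e1f_lc.H65.Prxt

namespace Pool.Agent.Lib.MP_a78e1f_lc.H65

open Pool.Agent.Lib.MP_100a6c_lc
open Pool.Agent.Lib.MP_c5d73d_lc.F (pr)
open Pool.Agent.Lib.MP_e6fef2_lc
open Pool.Agent.Lib.MP_6d445e_gt
open Pool.Agent.Lib.MP_a78e1f_lc

/-- Module PRXT: tree forcings with systems preserve good pairs. -/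
theorem prxt (hver : VerStatement.{u}) (hseq : SeqxStatement.{u}) (hev : EvxStatement.{u})
    (hdix : DixStatement.{u}) (hrf : RfmStatement.{u}) (hkap : KapStatement.{u})
    (hra : RapiStatement.{u}) (hre : RepStatement.{u}) (hgmx : GmxStatement.{u})
    (hgnd : GndStatement.{u}) (hlb : LbStatement.{u}) (hI : ItpStatement.{u})
    (hS : SlaStatement.{u}) : PrxtStatement.{u} := by
  intro 𝒯 ok hTf hok hTrs hSys A _
  obtain ⟨Θ, nd, lt, Λ, H⟩ := hSys A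
  have hne := (hgnd 𝒯 hTf A).1
  have hf : IsCE (tE 𝒯 A) := (all_tw1 A (TX 𝒯 A) (TQ 𝒯 A)).1
  refine Prxt.prxA (𝒯 := 𝒯) (ok := ok) (G := fun τ => tG τ) (Nd := fun t => tND t) (nd := nd) (lt := lt)
    (Λ := Λ) hkap hra hre hS hI hdix hrf hseq hev hver hlb hf (hgmx 𝒯 hTf A).2.2.1 ?_ ?_
  · intro X _ nd gd ed hP s0 a ha
    obtain ⟨P, τ, h1, h2, h3, -⟩ := hTrs A X nd gd ed hP s0 a ha
    exact ⟨P, τ, h1, h2, h3⟩
  · exact ⟨H.wf, H.add, H.inc, H.ini, H.nod, H.nxt⟩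

end Pool.Agent.Lib.MP_a78e1f_lc.H65
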